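import Mathlib

set_option autoImplicit false

/-! Finite-valued compositional valuations of labellings of the tree of words
(nodes are words, the child of `w` in direction `a` is `a :: w`, the root is `[]`). -/

namespace Pool.Agent.RecFIM

variable {L : Type} {σ τ γ Q Q' : Type}

/-- labelling of the subtree below the child of the root in direction `a` -/
def sub (t : List L → σ) (a : L) : List L → σ := fun w => t (w ++ [a])

/-- `t` is blank from depth `h` on -/
def HB [Inhabited σ] (t : List L → σ) (h : ℕ) : Prop := ∀ w, h ≤ w.length → t w = default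

/-- finite support in depth -/
def FS [Inhabited σ] (t : List L → σ) : Prop := ∃ h, HB t h

/-- compositional valuation -/
def Comp (val : (List L → σ) → Q) : Prop :=
  ∃ δ : σ → (L → Q) → Q, ∀ t, val t = δ (t []) (fun a => val (sub t a))

/-- build a labelling from root label and subtree labellings -/
def mkT (s : σ) (f : L → (List L → σ)) : List L → σ := fun w =>
  match w.getLast? with
  | none => s
  | some a => f a w.dropLast

@[simp] theorem mkT_nil (s : σ) (f : L → (List L → σ)) : mkT s f [] = s := rfl

@[simp] theorem mkT_concat (s : σ) (f : L → (List L → σ)) (w : List L) (a : L) :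
    mkT s f (w ++ [a]) = f a w := by
  simp [mkT]

@[simp] theorem sub_mkT (s : σ) (f : L → (List L → σ)) (a : L) : sub (mkT s f) a = f a := by
  funext w; simp [sub]

theorem HB.mono [Inhabited σ] {t : List L → σ} {h h' : ℕ} (H : HB t h) (hh : h ≤ h') : HB t h' :=
  fun w hw => H w (hh.trans hw)

theorem HB_zero [Inhabited σ] {t : List L → σ} : HB t 0 ↔ t = fun _ => default := by
  constructor
  · intro H; funext w; exact H w (Nat.zero_le _)
  · intro H w _; rw [H]

theorem HB_succ [Inhabited σ] {t : List L → σ} {h : ℕ} : HB t (h+1) ↔ ∀ a, HB (sub t a) h := by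
  constructor
  · intro H a w hw
    exact H _ (by simp; exact hw)
  · intro H w hw
    rcases List.eq_nil_or_concat w with rfl | ⟨w', a, rfl⟩
    · simp at hw
    · have := H a w' (by simpa using hw)
      simpa [sub] using this

theorem HB_mkT [Inhabited σ] {s : σ} {f : L → (List L → σ)} {h : ℕ} (H : ∀ a, HB (f a) h) :
    HB (mkT s f) (h+1) := by
  rw [HB_succ]; intro a; rw [sub_mkT]; exact H a

theorem FS_sub [Inhabited σ] {t : List L → σ} (H : FS t) (a : L) : FS (sub t a) := by
  obtain ⟨h, hh⟩ := H
  exact ⟨h, (HB_succ.1 (hh.mono (Nat.le_succ h))) a⟩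

theorem FS_mkT [Inhabited σ] [Finite L] {s : σ} {f : L → (List L → σ)} (H : ∀ a, FS (f a)) :
    FS (mkT s f) := by
  classical
  choose h hh using H
  have := Fintype.ofFinite L
  refine ⟨Finset.univ.sup h + 1, HB_mkT (fun a => (hh a).mono ?_)⟩
  exact Finset.le_sup (f := h) (Finset.mem_univ a)

theorem FS_const [Inhabited σ] : FS (fun _ : List L => (default : σ)) := ⟨0, fun _ _ => rfl⟩

/-- set of values of labellings of bounded height -/
def Rch [Inhabited σ] (val : (List L → σ) → Q) (j : ℕ) : Set Q := {q | ∃ t, HB t j ∧ val t = q}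

theorem pump [Inhabited σ] [Finite Q] {val : (List L → σ) → Q} (hc : Comp val)
    {t : List L → σ} (ht : FS t) : ∃ t', HB t' (Nat.card Q) ∧ val t' = val t := by
  classical
  obtain ⟨δ, hδ⟩ := hc
  obtain ⟨h, hh⟩ := ht
  have mono : ∀ i j, i ≤ j → Rch val i ⊆ Rch val j := by
    rintro i j hij q ⟨t, h1, h2⟩
    exact ⟨t, h1.mono hij, h2⟩
  have succ_eq : ∀ j, Rch val (j+1) = {q | ∃ s : σ, ∃ f : L → Q, (∀ a, f a ∈ Rch val j) ∧ q = δ s f} := by
    intro j
    ext q
    constructor
    · rintro ⟨t, h1, rfl⟩
      exact ⟨t [], fun a => val (sub t a), fun a => ⟨sub t a, HB_succ.1 h1 a, rfl⟩, hδ t⟩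
    · rintro ⟨s, f, hf, rfl⟩
      choose g hg1 hg2 using hf
      refine ⟨mkT s g, HB_mkT hg1, ?_⟩
      rw [hδ]; simp [hg2]
  have stab : ∀ j, Rch val j = Rch val (j+1) → Rch val (j+1) = Rch val (j+2) := by
    intro j hj
    rw [succ_eq j, succ_eq (j+1), hj]
  have hfin : ∀ j, (Rch val j).Finite := fun j => Set.toFinite _
  have key := Nat.stabilises_of_monotone (f := fun j => (Rch val j).ncard) (b := Nat.card Q)
    (n := max h (Nat.card Q)) (fun i j hij => Set.ncard_le_ncard (mono i j hij) (hfin j))
    (fun m => by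
      rw [← Set.ncard_univ]
      exact Set.ncard_le_ncard (Set.subset_univ _) (Set.toFinite _))
    (fun m hm => by
      have : Rch val m = Rch val (m+1) :=
        Set.eq_of_subset_of_ncard_le (mono m (m+1) (Nat.le_succ m)) (le_of_eq hm.symm) (hfin _)
      simp only [stab m this])
    (le_max_right _ _)
  have : Rch val (Nat.card Q) = Rch val (max h (Nat.card Q)) :=
    Set.eq_of_subset_of_ncard_le (mono _ _ (le_max_right _ _)) (le_of_eq key) (hfin _)
  have hmem : val t ∈ Rch val (max h (Nat.card Q)) := ⟨t, hh.mono (le_max_left _ _), rfl⟩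
  rw [← this] at hmem
  exact hmem

/-- relative pumping: the `γ`-part of a labelling can be chosen of height at most
`h + |Q|` if the `σ`-part has height at most `h`. -/
theorem rel_pump [Inhabited σ] [Inhabited γ] [Finite Q] {val : (List L → σ × γ) → Q}
    (hc : Comp val) : ∀ (h : ℕ) (s : List L → σ) (_ : HB s h) (g : List L → γ) (_ : FS g),
    ∃ g' : List L → γ, HB g' (h + Nat.card Q) ∧ val (fun w => (s w, g' w)) = val (fun w => (s w, g w)) := by
  classical
  obtain ⟨δ, hδ⟩ := hc
  intro h
  induction h with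
  | zero =>
    intro s hs g hg
    rw [HB_zero] at hs
    subst hs
    have hc' : Comp (fun g : List L → γ => val (fun w => ((default : σ), g w))) :=
      ⟨fun c q => δ (default, c) q, fun g => by
        show val _ = _
        rw [hδ]; rfl⟩
    obtain ⟨g', h1, h2⟩ := pump hc' hg
    exact ⟨g', by simpa using h1, h2⟩
  | succ h ih =>
    intro s hs g hg
    have : ∀ a, ∃ g' : List L → γ, HB g' (h + Nat.card Q) ∧
        val (fun w => (sub s a w, g' w)) = val (fun w => (sub s a w, sub g a w)) := fun a =>
      ih (sub s a) (HB_succ.1 hs a) (sub g a) (FS_sub hg a)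
    choose G hG1 hG2 using this
    refine ⟨mkT (g []) G, ?_, ?_⟩
    · have := HB_mkT (s := g []) hG1
      rwa [Nat.add_right_comm] at this
    · rw [hδ, hδ (fun w => (s w, g w))]
      congr 1
      funext a
      have h1 : sub (fun w => (s w, mkT (g []) G w)) a = fun w => (sub s a w, G a w) := by
        funext w; simp [sub]
      rw [h1, hG2 a]; rfl

/-- projection of a valuation: set of values over all finite labellings of the second component -/
def pval [Inhabited γ] (val : (List L → σ × γ) → Q) (s : List L → σ) : Set Q :=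
  {q | ∃ g : List L → γ, FS g ∧ val (fun w => (s w, g w)) = q}

theorem Comp.pval [Finite L] [Inhabited γ] {val : (List L → σ × γ) → Q} (hc : Comp val) :
    Comp (pval val) := by
  classical
  obtain ⟨δ, hδ⟩ := hc
  refine ⟨fun c qs => {q | ∃ e : γ, ∃ f : L → Q, (∀ a, f a ∈ qs a) ∧ q = δ (c, e) f}, fun s => ?_⟩
  ext q
  constructor
  · rintro ⟨g, hg, rfl⟩
    exact ⟨g [], fun a => val (sub (fun w => (s w, g w)) a), fun a => ⟨sub g a, FS_sub hg a, rfl⟩,
      hδ _⟩
  · rintro ⟨e, f, hf, rfl⟩
    choose G hG1 hG2 using hf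
    refine ⟨mkT e G, FS_mkT hG1, ?_⟩
    rw [hδ]
    congr 1
    funext a
    rw [← hG2 a]
    congr 1
    funext w; simp [sub]

theorem Comp.relabel {val : (List L → σ) → Q} (hc : Comp val) (f : τ → σ) :
    Comp (fun t : List L → τ => val (fun w => f (t w))) := by
  obtain ⟨δ, hδ⟩ := hc
  exact ⟨fun c q => δ (f c) q, fun t => by
    show val _ = _
    rw [hδ]; rfl⟩

theorem Comp.prod {val : (List L → σ) → Q} {val' : (List L → σ) → Q'} (hc : Comp val)
    (hc' : Comp val') : Comp (fun t => (val t, val' t)) := by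
  obtain ⟨δ, hδ⟩ := hc
  obtain ⟨δ', hδ'⟩ := hc'
  refine ⟨fun c q => (δ c (fun a => (q a).1), δ' c (fun a => (q a).2)), fun t => ?_⟩
  show (val t, val' t) = _
  rw [hδ, hδ']

/-- local property: holds at each node, may look at children and grandchildren -/
def Loc (P : σ → (L → σ) → (L → L → σ) → Prop) (t : List L → σ) : Prop :=
  ∀ w, P (t w) (fun a => t (a :: w)) (fun a b => t (b :: a :: w))

theorem Loc_iff (P : σ → (L → σ) → (L → L → σ) → Prop) (t : List L → σ) :
    Loc P t ↔ P (t []) (fun a => t [a]) (fun a b => t [b, a]) ∧ ∀ a, Loc P (sub t a) := by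
  constructor
  · intro H
    refine ⟨H [], fun a w => ?_⟩
    have := H (w ++ [a])
    simpa [sub] using this
  · rintro ⟨H1, H2⟩ w
    rcases List.eq_nil_or_concat w with rfl | ⟨w', a, rfl⟩
    · exact H1
    · have := H2 a w'
      simpa [sub] using this

/-- valuation for a family of local properties -/
def vloc {ι : Type} (P : ι → σ → (L → σ) → (L → L → σ) → Prop) (t : List L → σ) :
    (σ × (L → σ)) × (ι → Prop) :=
  ((t [], fun a => t [a]), fun i => Loc (P i) t)

theorem Comp_vloc {ι : Type} (P : ι → σ → (L → σ) → (L → L → σ) → Prop) : Comp (vloc P) := by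
  refine ⟨fun c q => ((c, fun a => (q a).1.1), fun i =>
    P i c (fun a => (q a).1.1) (fun a b => (q a).1.2 b) ∧ ∀ a, (q a).2 i), fun t => ?_⟩
  have : (fun i => Loc (P i) t) = fun i => P i (t []) (fun a => t [a]) (fun a b => t [b, a]) ∧ ∀ a, Loc (P i) (sub t a) := by
    funext i; exact propext (Loc_iff (P i) t)
  show ((t [], fun a => t [a]), fun i => Loc (P i) t) = _
  rw [this]; rfl

end Pool.Agent.RecFIM
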