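import Mathlib

set_option autoImplicit false

/-! Walks of a finite automaton on a subtree of the Cayley tree of a free group. -/

namespace Pool.Agent.RecFIM

/-- letters -/
abbrev Ltr (n : ℕ) := Fin n ⊕ Fin n
/-- transitions -/
abbrev Tr (n : ℕ) := ℕ × Option (Ltr n) × ℕ
/-- configurations: node and state -/
abbrev Cfg (n : ℕ) := List (Ltr n) × ℕ

variable {n : ℕ}

def linv (a : Ltr n) : Ltr n := a.swap

@[simp] theorem linv_linv (a : Ltr n) : linv (linv a) = a := by simp [linv]

theorem linv_ne (a : Ltr n) : linv a ≠ a := by rcases a with a | a <;> simp [linv]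

/-- move by a letter in the Cayley tree; nodes are reversed reduced words -/
def move (a : Ltr n) (w : List (Ltr n)) : List (Ltr n) :=
  match w with
  | [] => [a]
  | b :: w' => if b = linv a then w' else a :: b :: w'

def mvo (o : Option (Ltr n)) (w : List (Ltr n)) : List (Ltr n) :=
  match o with
  | none => w
  | some a => move a w

def nxt (c : Cfg n) (t : Tr n) : Cfg n := (mvo t.2.1 c.1, t.2.2)

def confs (c : Cfg n) : List (Tr n) → List (Cfg n)
  | [] => [c]
  | t :: l => c :: confs (nxt c t) l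

def lastc (c : Cfg n) : List (Tr n) → Cfg n
  | [] => c
  | t :: l => lastc (nxt c t) l

def PthOK (Δ : List (Tr n)) (p : ℕ) : List (Tr n) → Prop
  | [] => True
  | t :: l => t ∈ Δ ∧ t.1 = p ∧ PthOK Δ t.2.2 l

theorem lastc_mem_confs (c : Cfg n) (l : List (Tr n)) : lastc c l ∈ confs c l := by
  induction l generalizing c with
  | nil => simp [lastc, confs]
  | cons t l ih => simp [lastc, confs, ih]

theorem self_mem_confs (c : Cfg n) (l : List (Tr n)) : c ∈ confs c l := by
  cases l <;> simp [confs]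

theorem lastc_append (c : Cfg n) (l l' : List (Tr n)) :
    lastc c (l ++ l') = lastc (lastc c l) l' := by
  induction l generalizing c with
  | nil => rfl
  | cons t l ih => simp [lastc, ih]

theorem mem_confs_append (c d : Cfg n) (l l' : List (Tr n)) :
    d ∈ confs c (l ++ l') ↔ d ∈ confs c l ∨ d ∈ confs (lastc c l) l' := by
  induction l generalizing c with
  | nil =>
    simp only [List.nil_append, confs, lastc, List.mem_singleton]
    constructor
    · exact Or.inr
    · rintro (rfl | h)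
      · exact self_mem_confs _ _
      · exact h
  | cons t l ih => simp [confs, lastc, ih, or_assoc]

theorem PthOK_append (Δ : List (Tr n)) (c : Cfg n) (l l' : List (Tr n)) :
    PthOK Δ c.2 (l ++ l') ↔ PthOK Δ c.2 l ∧ PthOK Δ (lastc c l).2 l' := by
  induction l generalizing c with
  | nil => simp [PthOK, lastc]
  | cons t l ih =>
    have := ih (nxt c t)
    simp only [nxt] at this
    simp only [List.cons_append, PthOK, lastc, nxt, this, and_assoc]

/-- path inside the node set `T` -/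
def Pth (Δ : List (Tr n)) (T : Set (List (Ltr n))) (c : Cfg n) (l : List (Tr n)) (c' : Cfg n) : Prop :=
  PthOK Δ c.2 l ∧ (∀ d ∈ confs c l, d.1 ∈ T) ∧ lastc c l = c'

theorem Pth.append {Δ : List (Tr n)} {T : Set (List (Ltr n))} {c c' c'' : Cfg n}
    {l l' : List (Tr n)} (h : Pth Δ T c l c') (h' : Pth Δ T c' l' c'') :
    Pth Δ T c (l ++ l') c'' := by
  obtain ⟨h1, h2, rfl⟩ := h
  obtain ⟨h1', h2', rfl⟩ := h'
  refine ⟨(PthOK_append Δ c l l').2 ⟨h1, h1'⟩, ?_, lastc_append _ _ _⟩
  intro d hd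
  rcases (mem_confs_append c d l l').1 hd with h | h
  · exact h2 d h
  · exact h2' d h

theorem Pth.nil {Δ : List (Tr n)} {T : Set (List (Ltr n))} {c : Cfg n} (h : c.1 ∈ T) :
    Pth Δ T c [] c := by
  refine ⟨trivial, ?_, rfl⟩
  simpa [confs] using h

theorem Pth.single {Δ : List (Tr n)} {T : Set (List (Ltr n))} {c : Cfg n} {t : Tr n} (h : c.1 ∈ T)
    (h' : (nxt c t).1 ∈ T) (ht : t ∈ Δ) (hp : t.1 = c.2) :
    Pth Δ T c [t] (nxt c t) := by
  refine ⟨⟨ht, hp, trivial⟩, ?_, rfl⟩
  simp [confs, h, h']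

/-- reachability within T -/
def Reach (Δ : List (Tr n)) (T : Set (List (Ltr n))) (c c' : Cfg n) : Prop := ∃ l, Pth Δ T c l c'

theorem Pth.start_mem {Δ : List (Tr n)} {T : Set (List (Ltr n))} {c c' : Cfg n} {l : List (Tr n)}
    (h : Pth Δ T c l c') : c.1 ∈ T := h.2.1 c (self_mem_confs c l)

theorem Pth.end_mem {Δ : List (Tr n)} {T : Set (List (Ltr n))} {c c' : Cfg n} {l : List (Tr n)}
    (h : Pth Δ T c l c') : c'.1 ∈ T := by
  have := h.2.1 _ (lastc_mem_confs c l)
  rwa [h.2.2] at this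

theorem confs_state_le {Δ : List (Tr n)} {k : ℕ} (hk : ∀ t ∈ Δ, t.1 ≤ k ∧ t.2.2 ≤ k) {c : Cfg n}
    (hc : c.2 ≤ k) {l : List (Tr n)} (hl : PthOK Δ c.2 l) : ∀ d ∈ confs c l, d.2 ≤ k := by
  induction l generalizing c with
  | nil => simpa [confs] using hc
  | cons t l ih =>
    intro d hd
    simp only [confs, List.mem_cons] at hd
    rcases hd with rfl | hd
    · exact hc
    · exact ih (c := nxt c t) (hk t hl.1).2 hl.2.2 d hd

/-- bounded length reachability -/
theorem Reach.short {Δ : List (Tr n)} {T : Set (List (Ltr n))} {k M : ℕ}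
    (hk : ∀ t ∈ Δ, t.1 ≤ k ∧ t.2.2 ≤ k) (hT : T.Finite) (hM : T.ncard * (k+1) ≤ M)
    {c c' : Cfg n} (hc : c.2 ≤ k) (h : Reach Δ T c c') :
    ∃ l, Pth Δ T c l c' ∧ l.length ≤ M := by
  classical
  let f : ℕ → Set (Cfg n) := fun j => {d | ∃ l, Pth Δ T c l d ∧ l.length ≤ j}
  let D : Set (Cfg n) := T ×ˢ (Set.Iic k)
  have hD : D.Finite := hT.prod (Set.finite_Iic k)
  have hDc : D.ncard ≤ M := by
    have : D.ncard = T.ncard * (k+1) := by
      simp only [D]
      rw [Set.ncard_prod]
      congr 1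
      rw [← Nat.card_coe_set_eq]
      simp
    omega
  have hfD : ∀ j, f j ⊆ D := by
    rintro j d ⟨l, hl, -⟩
    refine ⟨hl.end_mem, ?_⟩
    have := confs_state_le hk hc hl.1 _ (lastc_mem_confs c l)
    rw [hl.2.2] at this
    exact this
  have hfin : ∀ j, (f j).Finite := fun j => hD.subset (hfD j)
  have mono : ∀ i j, i ≤ j → f i ⊆ f j := by
    rintro i j hij d ⟨l, h1, h2⟩
    exact ⟨l, h1, h2.trans hij⟩
  have succ_eq : ∀ j, f (j+1) = f j ∪ {d | ∃ e ∈ f j, ∃ t ∈ Δ, t.1 = e.2 ∧ d.1 ∈ T ∧ d = nxt e t} := by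
    intro j
    ext d
    constructor
    · rintro ⟨l, hl, hlen⟩
      rcases List.eq_nil_or_concat l with rfl | ⟨l', t, rfl⟩
      · exact Or.inl ⟨[], hl, Nat.zero_le _⟩
      · right
        obtain ⟨h1, h2, h3⟩ := hl
        rw [List.concat_eq_append] at *
        rw [PthOK_append] at h1
        rw [lastc_append] at h3
        refine ⟨lastc c l', ⟨l', ⟨h1.1, ?_, rfl⟩, ?_⟩, t, h1.2.1, h1.2.2.1, ?_, ?_⟩
        · intro e he
          exact h2 e ((mem_confs_append _ _ _ _).2 (Or.inl he))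
        · simp at hlen; omega
        · apply h2
          rw [mem_confs_append]
          right
          rw [← h3]
          exact lastc_mem_confs _ _
        · rw [← h3]; rfl
    · rintro (h | ⟨e, ⟨l, hl, hlen⟩, t, ht, htp, hd, rfl⟩)
      · exact mono j (j+1) (Nat.le_succ j) h
      · refine ⟨l ++ [t], hl.append (Pth.single hl.end_mem hd ht htp), ?_⟩
        simp; omega
  have stab : ∀ j, f j = f (j+1) → f (j+1) = f (j+2) := by
    intro j hj
    rw [succ_eq (j+1), ← hj, ← succ_eq j, hj]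
  obtain ⟨l0, hl0⟩ := h
  have key := Nat.stabilises_of_monotone (f := fun j => (f j).ncard) (b := M)
    (n := max l0.length M) (fun i j hij => Set.ncard_le_ncard (mono i j hij) (hfin j))
    (fun m => (Set.ncard_le_ncard (hfD m) hD).trans hDc)
    (fun m hm => by
      have : f m = f (m+1) :=
        Set.eq_of_subset_of_ncard_le (mono m (m+1) (Nat.le_succ m)) (le_of_eq hm.symm) (hfin _)
      simp only [stab m this])
    (le_max_right _ _)
  have : f M = f (max l0.length M) :=
    Set.eq_of_subset_of_ncard_le (mono _ _ (le_max_right _ _)) (le_of_eq key) (hfin _)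
  have hmem : c' ∈ f (max l0.length M) := ⟨l0, hl0, le_max_left _ _⟩
  rw [← this] at hmem
  obtain ⟨l, h1, h2⟩ := hmem
  exact ⟨l, h1, h2⟩

theorem exists_min {α : Type} (R : α → α → Prop) (htr : ∀ a b c, R a b → R b c → R a c)
    (S : Finset α) (hS : S.Nonempty) (hcmp : ∀ a ∈ S, ∀ b ∈ S, R a b ∨ R b a) :
    ∃ m ∈ S, ∀ s ∈ S, R m s := by
  classical
  induction hS using Finset.Nonempty.cons_induction with
  | singleton a =>
    refine ⟨a, by simp, ?_⟩
    intro s hs
    have := hcmp a (by simp) a (by simp)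
    simp only [Finset.mem_singleton] at hs
    subst hs
    tauto
  | cons a S ha hS ih =>
    obtain ⟨m, hm, hms⟩ := ih (fun x hx y hy => hcmp x (by simp [hx]) y (by simp [hy]))
    rcases hcmp a (by simp) m (by simp [hm]) with h | h
    · refine ⟨a, by simp, ?_⟩
      intro s hs
      rw [Finset.mem_cons] at hs
      rcases hs with rfl | hs
      · have := hcmp s (by simp) s (by simp)
        tauto
      · exact htr _ _ _ h (hms s hs)
    · refine ⟨m, by simp [hm], ?_⟩
      intro s hs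
      rw [Finset.mem_cons] at hs
      rcases hs with rfl | hs
      · exact h
      · exact hms s hs

theorem cover_path {Δ : List (Tr n)} {T : Set (List (Ltr n))} {k M : ℕ}
    (hk : ∀ t ∈ Δ, t.1 ≤ k ∧ t.2.2 ≤ k) (hT : T.Finite) (hM : T.ncard * (k+1) ≤ M)
    (cend : Cfg n) (m : ℕ) : ∀ (S : Finset (Cfg n)) (_ : S.card = m) (c : Cfg n) (_ : c.2 ≤ k)
      (_ : ∀ s ∈ S, s.2 ≤ k)
      (_ : Reach Δ T c cend) (_ : ∀ s ∈ S, Reach Δ T c s) (_ : ∀ s ∈ S, Reach Δ T s cend)
      (_ : ∀ s ∈ S, ∀ s' ∈ S, Reach Δ T s s' ∨ Reach Δ T s' s),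
      ∃ l, Pth Δ T c l cend ∧ (∀ s ∈ S, s ∈ confs c l) ∧ l.length ≤ (m + 1) * M := by
  classical
  induction m with
  | zero =>
    intro S hS c hc _ hce _ _ _
    rw [Finset.card_eq_zero] at hS
    subst hS
    obtain ⟨l, hl, hlen⟩ := hce.short hk hT hM hc
    exact ⟨l, hl, by simp, by simpa using hlen⟩
  | succ m ih =>
    intro S hS c hc hSk hce hcS hSe hcmp
    have hne : S.Nonempty := by
      rw [← Finset.card_pos, hS]; omega
    obtain ⟨s0, hs0, hmin⟩ := exists_min (Reach Δ T)
      (fun a b c ⟨l, hl⟩ ⟨l', hl'⟩ => ⟨l ++ l', hl.append hl'⟩) S hne hcmp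
    obtain ⟨l1, hl1, hlen1⟩ := (hcS s0 hs0).short hk hT hM hc
    obtain ⟨l2, hl2, hcov, hlen2⟩ := ih (S.erase s0) (by rw [Finset.card_erase_of_mem hs0, hS]; rfl)
      s0 (hSk s0 hs0) (fun s hs => hSk s (Finset.mem_of_mem_erase hs)) (hSe s0 hs0)
      (fun s hs => hmin s (Finset.mem_of_mem_erase hs))
      (fun s hs => hSe s (Finset.mem_of_mem_erase hs))
      (fun s hs s' hs' => hcmp s (Finset.mem_of_mem_erase hs) s' (Finset.mem_of_mem_erase hs'))
    refine ⟨l1 ++ l2, hl1.append hl2, ?_, ?_⟩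
    · intro s hs
      rw [mem_confs_append, hl1.2.2]
      by_cases h : s = s0
      · subst h; right; exact self_mem_confs _ _
      · right; exact hcov s (Finset.mem_erase.2 ⟨h, hs⟩)
    · rw [List.length_append]
      calc l1.length + l2.length ≤ M + (m+1) * M := by omega
        _ = (m + 1 + 1) * M := by ring

end Pool.Agent.RecFIM
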