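import Mathlib
import Pool.Agent.Lib.MP_5c1719_al.Aut
import Pool.Agent.Lib.MP_5c1719_al.Walk

set_option autoImplicit false

namespace Pool.Agent.RecFIM

variable {n : ℕ}

/-- label of an element: membership in the tree, membership in the path to the end point -/
abbrev EL := Bool × Bool

/-- local validity of an element labelling -/
def PV (s : EL) (ch : Ltr n → EL) (gch : Ltr n → Ltr n → EL) : Prop :=
  (∀ a, (ch a).1 = true → s.1 = true) ∧
  (∀ a, (ch a).2 = true → s.2 = true ∧ (ch a).1 = true) ∧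
  (∀ a b, (ch a).2 = true → (ch b).2 = true → a = b) ∧
  (∀ a b, (gch a b).1 = true → b ≠ linv a)

/-- a valid element: a finite reduced subtree containing the root, with a marked path from the root -/
def Valid (u : List (Ltr n) → EL) : Prop :=
  (u []).1 = true ∧ (u []).2 = true ∧ Loc PV u

def tset (u : List (Ltr n) → EL) : Set (List (Ltr n)) := {w | (u w).1 = true}

abbrev St (k : ℕ) := Fin (k+1) → Bool
abbrev Lab0 (k : ℕ) := ((EL × EL) × (St k × St k)) × (St k × St k)

def inT {k : ℕ} (s : Lab0 k) : Prop := s.1.1.1.1 = true ∨ s.1.1.2.1 = true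

def closedP {k : ℕ} (Δ : List (Tr n)) (get : Lab0 k → St k) (s : Lab0 k) (ch : Ltr n → Lab0 k) : Prop :=
  inT s → ∀ t ∈ Δ, ∀ p q : Fin (k+1), (p : ℕ) = t.1 → (q : ℕ) = t.2.2 →
    (t.2.1 = none → get s p = true → get s q = true) ∧
    (∀ a, t.2.1 = some a →
      (inT (ch a) → get s p = true → get (ch a) q = true) ∧
      (inT (ch (linv a)) → get (ch (linv a)) p = true → get s q = true))

/-- the family of local properties -/
def PW {k : ℕ} (Δ : List (Tr n)) (F : List ℕ) (i : Fin 11) (s : Lab0 k) (ch : Ltr n → Lab0 k)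
    (_ : Ltr n → Ltr n → Lab0 k) : Prop :=
  match i with
  | 0 => inT s → ∃ p, s.1.2.1 p = true
  | 1 => ∀ p, s.1.2.1 p = true → inT s
  | 2 => ¬ ((s.1.1.2.2 = true ∧ ∀ a, (ch a).1.1.2.2 = false) ∧ ∃ p, s.1.2.2 p = true ∧ (p : ℕ) ∈ F)
  | 3 => closedP Δ (fun s => s.2.1) s ch
  | 4 => closedP Δ (fun s => s.2.2) s ch
  | 5 => ¬ ((s.1.1.1.2 = true ∧ ∀ a, (ch a).1.1.1.2 = false) ∧ s.2.1 0 = true)
  | 6 => ∀ p, s.1.2.1 p = true → s.2.1 p = true
  | 7 => ∀ p, ¬ (s.1.2.1 p = true ∧ s.2.1 p = true)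
  | 8 => ∀ p, s.1.2.2 p = true → s.2.1 p = true
  | 9 => ∀ p, s.1.2.1 p = true → s.2.1 p = true → s.2.2 p = true
  | 10 => ∀ p, s.1.2.1 p = true → s.2.2 p = true → s.2.1 p = true

abbrev Q0 (n k : ℕ) := (Lab0 k × (Ltr n → Lab0 k)) × (Fin 11 → Prop)

def theta {k : ℕ} (q : Q0 n k) : Prop :=
  q.2 0 ∧ q.2 1 ∧ ¬ q.2 2 ∧
    (q.2 3 → q.2 4 → ((¬ q.2 5 → q.2 6) ∧ (¬ q.2 7 → q.2 8) ∧ (q.2 9 ∨ q.2 10)))

/-- base valuation -/
def val0 (k : ℕ) (Δ : List (Tr n)) (F : List ℕ) : (List (Ltr n) → Lab0 k) → Q0 n k := vloc (PW Δ F)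
def val1 (k : ℕ) (Δ : List (Tr n)) (F : List ℕ) : (List (Ltr n) → (EL × EL) × (St k × St k)) → Set (Q0 n k) :=
  pval (val0 k Δ F)
def val2 (k : ℕ) (Δ : List (Tr n)) (F : List ℕ) : (List (Ltr n) → EL × EL) → Set (Set (Q0 n k)) :=
  pval (val1 k Δ F)

def G2 {k : ℕ} (X : Set (Set (Q0 n k))) : Prop := ∃ Y ∈ X, ∀ q ∈ Y, theta q

/-- the formula -/
def Wf (k : ℕ) (Δ : List (Tr n)) (F : List ℕ) (u v : List (Ltr n) → EL) : Prop :=
  G2 (val2 k Δ F (fun w => (u w, v w)))

theorem Wf_iff (k : ℕ) (Δ : List (Tr n)) (F : List ℕ) (u v : List (Ltr n) → EL) :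
    Wf k Δ F u v ↔ ∃ se : List (Ltr n) → St k × St k, FS se ∧
      ∀ cc : List (Ltr n) → St k × St k, FS cc →
        theta (val0 k Δ F (fun w => (((u w, v w), se w), cc w))) := by
  constructor
  · rintro ⟨Y, ⟨se, hse, rfl⟩, hY⟩
    exact ⟨se, hse, fun cc hcc => hY _ ⟨cc, hcc, rfl⟩⟩
  · rintro ⟨se, hse, h⟩
    refine ⟨_, ⟨se, hse, rfl⟩, ?_⟩
    rintro q ⟨cc, hcc, rfl⟩
    exact h cc hcc

/-- the end point of an element -/
def IsEnd (u : List (Ltr n) → EL) (x : List (Ltr n)) : Prop :=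
  (u x).2 = true ∧ ∀ a, (u (a :: x)).2 = false

/-- accepted covering walk -/
def Acc (Δ : List (Tr n)) (F : List ℕ) (x : List (Ltr n)) (T : Set (List (Ltr n))) (y : List (Ltr n))
    (N : ℕ) : Prop :=
  ∃ l, PthOK Δ 0 l ∧ (lastc (x, 0) l).2 ∈ F ∧ (lastc (x, 0) l).1 = y ∧
    (∀ z, z ∈ T ↔ ∃ d ∈ confs (x, 0) l, d.1 = z) ∧ l.length ≤ N

/-- membership of a configuration in a labelled set -/
def Cin {k : ℕ} (C : List (Ltr n) → St k) (c : Cfg n) : Prop := ∃ h : c.2 < k + 1, C c.1 ⟨c.2, h⟩ = true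

def ClosedSem {k : ℕ} (Δ : List (Tr n)) (T : Set (List (Ltr n))) (C : List (Ltr n) → St k) : Prop :=
  ∀ c : Cfg n, c.1 ∈ T → ∀ t ∈ Δ, t.1 = c.2 → (nxt c t).1 ∈ T → Cin C c → Cin C (nxt c t)

/-- trees: prefix closed and reduced -/
structure TreeLike (T : Set (List (Ltr n))) : Prop where
  root : [] ∈ T
  par : ∀ a w, a :: w ∈ T → w ∈ T
  red : ∀ a b w, b :: a :: w ∈ T → b ≠ linv a

theorem closed_iff {k : ℕ} {Δ : List (Tr n)} (hk : ∀ t ∈ Δ, t.1 ≤ k ∧ t.2.2 ≤ k)
    (lab : List (Ltr n) → Lab0 k) (T : Set (List (Ltr n))) (hT : TreeLike T)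
    (hlab : ∀ w, inT (lab w) ↔ w ∈ T) (get : Lab0 k → St k) :
    (∀ w, closedP Δ get (lab w) (fun a => lab (a :: w))) ↔ ClosedSem Δ T (fun w => get (lab w)) := by
  constructor
  · intro H c hc t ht htc hn hin
    obtain ⟨z, p⟩ := c
    obtain ⟨hp, hC⟩ := hin
    simp only at htc hc hC hp
    have hq : t.2.2 < k + 1 := Nat.lt_succ_of_le (hk t ht).2
    refine ⟨hq, ?_⟩
    show get (lab (mvo t.2.1 z)) ⟨t.2.2, hq⟩ = true
    cases ho : t.2.1 with
    | none =>
      exact ((H z) ((hlab z).2 hc) t ht ⟨p, hp⟩ ⟨t.2.2, hq⟩ htc.symm rfl).1 ho hC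
    | some a =>
      have hn' : move a z ∈ T := by
        have : (nxt (z, p) t).1 = move a z := by simp [nxt, ho, mvo]
        rwa [this] at hn
      show get (lab (move a z)) ⟨t.2.2, hq⟩ = true
      cases z with
      | nil =>
        exact (((H []) ((hlab []).2 hc) t ht ⟨p, hp⟩ ⟨t.2.2, hq⟩ htc.symm rfl).2 a ho).1
          ((hlab [a]).2 hn') hC
      | cons b z' =>
        by_cases hb : b = linv a
        · have hm : move a (b :: z') = z' := by simp [move, hb]
          rw [hm] at hn' ⊢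
          subst hb
          exact (((H z') ((hlab z').2 hn') t ht ⟨p, hp⟩ ⟨t.2.2, hq⟩ htc.symm rfl).2 a ho).2
            ((hlab _).2 hc) hC
        · have hm : move a (b :: z') = a :: b :: z' := by simp [move, hb]
          rw [hm] at hn' ⊢
          exact (((H (b :: z')) ((hlab _).2 hc) t ht ⟨p, hp⟩ ⟨t.2.2, hq⟩ htc.symm rfl).2 a ho).1
            ((hlab _).2 hn') hC
  · intro H w hw t ht p q hp hq
    have hwT : w ∈ T := (hlab w).1 hw
    constructor
    · intro ho hC
      have hn : nxt (w, (p : ℕ)) t = (w, t.2.2) := by simp [nxt, ho, mvo]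
      have := H (w, (p : ℕ)) hwT t ht hp.symm (by rw [hn]; exact hwT) ⟨p.2, hC⟩
      rw [hn] at this
      obtain ⟨h1, h2⟩ := this
      have : (⟨t.2.2, h1⟩ : Fin (k+1)) = q := Fin.ext hq.symm
      rw [← this]; exact h2
    · intro a ho
      constructor
      · intro hch hC
        have hchT : a :: w ∈ T := (hlab _).1 hch
        have hm : move a w = a :: w := by
          cases w with
          | nil => rfl
          | cons b w' =>
            have : b ≠ linv a := by
              intro hb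
              have := hT.red b a w' hchT
              apply this
              rw [hb, linv_linv]
            simp [move, this]
        have hn : nxt (w, (p : ℕ)) t = (a :: w, t.2.2) := by simp [nxt, ho, mvo, hm]
        have := H (w, (p : ℕ)) hwT t ht hp.symm (by rw [hn]; exact hchT) ⟨p.2, hC⟩
        rw [hn] at this
        obtain ⟨h1, h2⟩ := this
        have : (⟨t.2.2, h1⟩ : Fin (k+1)) = q := Fin.ext hq.symm
        rw [← this]; exact h2
      · intro hch hC
        have hchT : linv a :: w ∈ T := (hlab _).1 hch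
        have hm : move a (linv a :: w) = w := by simp [move]
        have hn : nxt (linv a :: w, (p : ℕ)) t = (w, t.2.2) := by simp [nxt, ho, mvo, hm]
        have := H (linv a :: w, (p : ℕ)) hchT t ht hp.symm (by rw [hn]; exact hwT) ⟨p.2, hC⟩
        rw [hn] at this
        obtain ⟨h1, h2⟩ := this
        have : (⟨t.2.2, h1⟩ : Fin (k+1)) = q := Fin.ext hq.symm
        rw [← this]; exact h2

theorem Cin_of_path {k : ℕ} {Δ : List (Tr n)} {T : Set (List (Ltr n))} {C : List (Ltr n) → St k}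
    (hC : ClosedSem Δ T C) : ∀ (l : List (Tr n)) (c : Cfg n), PthOK Δ c.2 l →
    (∀ d ∈ confs c l, d.1 ∈ T) → Cin C c → ∀ d ∈ confs c l, Cin C d := by
  intro l
  induction l with
  | nil =>
    intro c _ _ h d hd
    simp only [confs, List.mem_singleton] at hd
    subst hd; exact h
  | cons t l ih =>
    intro c hp hT h d hd
    simp only [confs, List.mem_cons] at hd
    rcases hd with rfl | hd
    · exact h
    · refine ih (nxt c t) hp.2.2 (fun e he => hT e (by simp [confs, he])) ?_ d hd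
      exact hC c (hT c (self_mem_confs _ _)) t hp.1 hp.2.1
        (hT _ (by simp [confs, self_mem_confs])) h

theorem end_of_path {k : ℕ} {Δ : List (Tr n)} {T : Set (List (Ltr n))} {C : List (Ltr n) → St k}
    (hC : ClosedSem Δ T C) : ∀ (l : List (Tr n)) (c : Cfg n), PthOK Δ c.2 l →
    (∀ d ∈ confs c l, d.1 ∈ T) → ∀ d ∈ confs c l, Cin C d → Cin C (lastc c l) := by
  intro l
  induction l with
  | nil =>
    intro c _ _ d hd h
    simp only [confs, List.mem_singleton] at hd
    subst hd; exact h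
  | cons t l ih =>
    intro c hp hT d hd h
    simp only [confs, List.mem_cons] at hd
    rcases hd with rfl | hd
    · exact Cin_of_path hC (t :: l) d hp hT h _ (lastc_mem_confs _ _)
    · exact ih (nxt c t) hp.2.2 (fun e he => hT e (by simp [confs, he])) d hd h

theorem chain_of_path {k : ℕ} {Δ : List (Tr n)} {T : Set (List (Ltr n))} {C D : List (Ltr n) → St k}
    (hC : ClosedSem Δ T C) (hD : ClosedSem Δ T D) : ∀ (l : List (Tr n)) (c : Cfg n), PthOK Δ c.2 l →
    (∀ d ∈ confs c l, d.1 ∈ T) →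
    (∀ d ∈ confs c l, Cin C d → Cin D d) ∨ (∀ d ∈ confs c l, Cin D d → Cin C d) := by
  intro l
  induction l with
  | nil =>
    intro c _ _
    simp only [confs, List.mem_singleton, forall_eq]
    tauto
  | cons t l ih =>
    intro c hp hT
    by_cases h1 : Cin C c
    · right
      intro d hd _
      exact Cin_of_path hC (t :: l) c hp hT h1 d hd
    by_cases h2 : Cin D c
    · left
      intro d hd _
      exact Cin_of_path hD (t :: l) c hp hT h2 d hd
    rcases ih (nxt c t) hp.2.2 (fun e he => hT e (by simp [confs, he])) with h | h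
    · left
      intro d hd hdC
      simp only [confs, List.mem_cons] at hd
      rcases hd with rfl | hd
      · exact absurd hdC h1
      · exact h d hd hdC
    · right
      intro d hd hdC
      simp only [confs, List.mem_cons] at hd
      rcases hd with rfl | hd
      · exact absurd hdC h2
      · exact h d hd hdC

end Pool.Agent.RecFIM
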