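import Mathlib
import Pool.Agent.Lib.MP_5c1719_al.Formula

set_option autoImplicit false

namespace Pool.Agent.RecFIM

variable {n : ℕ}

theorem Valid.treeLike_union {u v : List (Ltr n) → EL} (hu : Valid u) (hv : Valid v) :
    TreeLike (tset u ∪ tset v) := by
  refine ⟨Or.inl hu.1, ?_, ?_⟩
  · rintro a w (h | h)
    · exact Or.inl ((hu.2.2 w).1 a h)
    · exact Or.inr ((hv.2.2 w).1 a h)
  · rintro a b w (h | h)
    · exact (hu.2.2 w).2.2.2 a b h
    · exact (hv.2.2 w).2.2.2 a b h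

theorem length_bound (l : List (Cfg n)) : ∃ h, ∀ d ∈ l, d.1.length < h := by
  induction l with
  | nil => exact ⟨0, by simp⟩
  | cons c l ih =>
    obtain ⟨h, hh⟩ := ih
    refine ⟨max h (c.1.length + 1), ?_⟩
    intro d hd
    rw [List.mem_cons] at hd
    rcases hd with rfl | hd
    · exact lt_of_lt_of_le (Nat.lt_succ_self _) (le_max_right _ _)
    · exact lt_of_lt_of_le (hh d hd) (le_max_left _ _)

theorem Wf_of_Acc {k : ℕ} {Δ : List (Tr n)} (hk : ∀ t ∈ Δ, t.1 ≤ k ∧ t.2.2 ≤ k) {F : List ℕ}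
    {u v : List (Ltr n) → EL} (hu : Valid u) (hv : Valid v) {x y : List (Ltr n)}
    (hx : ∀ x', IsEnd u x' ↔ x' = x) (hy : IsEnd v y) {N : ℕ}
    (h : Acc Δ F x (tset u ∪ tset v) y N) : Wf k Δ F u v := by
  classical
  obtain ⟨l, hl, hF, hly, hcov, -⟩ := h
  have hT := hu.treeLike_union hv
  rw [Wf_iff]
  set c0 : Cfg n := (x, 0) with hc0
  have hst := confs_state_le hk (c := c0) (Nat.zero_le _) hl
  have hTm : ∀ d ∈ confs c0 l, d.1 ∈ tset u ∪ tset v := fun d hd => (hcov d.1).2 ⟨d, hd, rfl⟩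
  refine ⟨fun w => (fun p => decide ((w, (p:ℕ)) ∈ confs c0 l), fun p => decide ((w, (p:ℕ)) = lastc c0 l)), ?_, ?_⟩
  · obtain ⟨h, hh⟩ := length_bound (confs c0 l)
    refine ⟨h, ?_⟩
    intro w hw
    have h1 : ∀ p : ℕ, ¬ (w, p) ∈ confs c0 l := by
      intro p hp
      have := hh _ hp
      simp only at this
      omega
    have h2 : ∀ p : ℕ, ¬ (w, p) = lastc c0 l := by
      intro p hp
      exact h1 p (hp ▸ lastc_mem_confs c0 l)
    show (_, _) = _
    have e1 : (fun p : Fin (k+1) => decide ((w, (p:ℕ)) ∈ confs c0 l)) = default := by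
      funext p; simp [h1]
    have e2 : (fun p : Fin (k+1) => decide ((w, (p:ℕ)) = lastc c0 l)) = default := by
      funext p; simp [h2]
    rw [e1, e2]; rfl
  · intro cc _
    -- abbreviations
    set lab : List (Ltr n) → Lab0 k := fun w => (((u w, v w), (fun p : Fin (k+1) => decide ((w, (p:ℕ)) ∈ confs c0 l), fun p : Fin (k+1) => decide ((w, (p:ℕ)) = lastc c0 l))), cc w) with hlab
    have hinT : ∀ w, inT (lab w) ↔ w ∈ tset u ∪ tset v := fun w => Iff.rfl
    have hS : ∀ w (p : Fin (k+1)), (lab w).1.2.1 p = true ↔ (w, (p:ℕ)) ∈ confs c0 l := by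
      intro w p; simp [hlab]
    have hE : ∀ w (p : Fin (k+1)), (lab w).1.2.2 p = true ↔ (w, (p:ℕ)) = lastc c0 l := by
      intro w p; simp [hlab]
    have hlast : lastc c0 l ∈ confs c0 l := lastc_mem_confs _ _
    refine ⟨?_, ?_, ?_, ?_⟩
    · -- cover
      intro w hw
      obtain ⟨d, hd, hdw⟩ := (hcov w).1 ((hinT w).1 hw)
      have hd2 := hst d hd
      refine ⟨⟨d.2, Nat.lt_succ_of_le hd2⟩, (hS w _).2 ?_⟩
      have : (w, d.2) = d := by rw [← hdw]
      simpa [this] using hd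
    · intro w p hp
      rw [hS] at hp
      exact (hinT w).2 (hTm _ hp)
    · intro hcon
      have := hcon y
      apply this
      refine ⟨⟨hy.1, fun a => hy.2 a⟩, ⟨(lastc c0 l).2, Nat.lt_succ_of_le (hst _ hlast)⟩, ?_, hF⟩
      rw [hE]
      show (y, (lastc c0 l).2) = lastc c0 l
      rw [← hly]
    · intro h3 h4
      have hC : ClosedSem Δ (tset u ∪ tset v) (fun w => (lab w).2.1) :=
        (closed_iff hk lab _ hT hinT (fun s => s.2.1)).1 h3
      have hD : ClosedSem Δ (tset u ∪ tset v) (fun w => (lab w).2.2) :=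
        (closed_iff hk lab _ hT hinT (fun s => s.2.2)).1 h4
      have hCin : ∀ (C : List (Ltr n) → St k) w (p : Fin (k+1)), Cin C (w, (p:ℕ)) ↔ C w p = true := by
        intro C w p
        constructor
        · rintro ⟨h, hh⟩; exact hh
        · intro h; exact ⟨p.2, h⟩
      refine ⟨?_, ?_, ?_⟩
      · intro h5 w p hp
        have : ∃ w, (((lab w).1.1.1.2 = true ∧ ∀ a, (lab (a :: w)).1.1.1.2 = false) ∧ (lab w).2.1 0 = true) := by
          by_contra hcon
          apply h5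
          intro w hw
          exact hcon ⟨w, hw⟩
        obtain ⟨w0, hw0, hC0⟩ := this
        have : w0 = x := (hx w0).1 hw0
        subst this
        have h0 : Cin (fun w => (lab w).2.1) c0 := by
          rw [hc0]
          exact ⟨Nat.succ_pos _, hC0⟩
        have := Cin_of_path hC l c0 hl hTm h0 (w, (p:ℕ)) ((hS w p).1 hp)
        exact (hCin _ w p).1 this
      · intro h7 w p hp
        have : ∃ w, ∃ p, ((lab w).1.2.1 p = true ∧ (lab w).2.1 p = true) := by
          by_contra hcon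
          apply h7
          intro w p hw
          exact hcon ⟨w, p, hw⟩
        obtain ⟨w1, p1, hp1, hp2⟩ := this
        have := end_of_path hC l c0 hl hTm (w1, (p1:ℕ)) ((hS _ _).1 hp1) ((hCin _ w1 p1).2 hp2)
        rw [← (hE w p).1 hp] at this
        exact (hCin _ w p).1 this
      · rcases chain_of_path hC hD l c0 hl hTm with h | h
        · left
          intro w p hp hp'
          exact (hCin _ w p).1 (h _ ((hS w p).1 hp) ((hCin _ w p).2 hp'))
        · right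
          intro w p hp hp'
          exact (hCin _ w p).1 (h _ ((hS w p).1 hp) ((hCin _ w p).2 hp'))

theorem Acc_of_Wf {k : ℕ} {Δ : List (Tr n)} (hk : ∀ t ∈ Δ, t.1 ≤ k ∧ t.2.2 ≤ k) {F : List ℕ}
    {u v : List (Ltr n) → EL} (hu : Valid u) (hv : Valid v) {x y : List (Ltr n)}
    (hx : IsEnd u x) (hy : ∀ y', IsEnd v y' ↔ y' = y) (hxT : x ∈ tset u) 
    {M : ℕ} (hfin : (tset u ∪ tset v).Finite) (hM : (tset u ∪ tset v).ncard * (k+1) ≤ M)
    (h : Wf k Δ F u v) : Acc Δ F x (tset u ∪ tset v) y ((M+1)*M) := by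
  classical
  rw [Wf_iff] at h
  obtain ⟨se, hse, H⟩ := h
  have hT := hu.treeLike_union hv
  set T := tset u ∪ tset v with hTdef
  -- height bound for T
  obtain ⟨hh, hhT⟩ : ∃ h, ∀ w ∈ T, w.length < h := by
    obtain ⟨h, hb⟩ := length_bound (hfin.toFinset.toList.map (fun w => (w, 0)))
    refine ⟨h, fun w hw => ?_⟩
    have := hb (w, 0) (by simp only [List.mem_map, Finset.mem_toList, Set.Finite.mem_toFinset]; exact ⟨w, hw, rfl⟩)
    exact this
  have hinT : ∀ (cc : List (Ltr n) → St k × St k) w, inT ((((u w, v w), se w), cc w) : Lab0 k) ↔ w ∈ T := fun _ w => Iff.rfl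
  -- closed sets from semantic sets
  let RS : Cfg n → List (Ltr n) → St k := fun c w p => decide (Reach Δ T c (w, (p:ℕ)))
  have hRS_fs : ∀ c w, hh ≤ w.length → RS c w = default := by
    intro c w hw
    funext p
    have : ¬ Reach Δ T c (w, (p:ℕ)) := by
      rintro ⟨l, hl⟩
      have := hhT _ hl.end_mem
      simp only at this
      omega
    simp [RS, this]
  have hRS : ∀ c w (p : Fin (k+1)), RS c w p = true ↔ Reach Δ T c (w, (p:ℕ)) := by
    intro c w p; simp [RS]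
  have hRSc : ∀ c, ClosedSem Δ T (RS c) := by
    intro c d hd t ht htd hn hin
    obtain ⟨h1, h2⟩ := hin
    have h2' : Reach Δ T c (d.1, d.2) := (hRS c d.1 ⟨d.2, h1⟩).1 h2
    refine ⟨Nat.lt_succ_of_le (hk t ht).2, (hRS _ _ _).2 ?_⟩
    obtain ⟨l, hl⟩ := h2'
    exact ⟨l ++ [t], hl.append (Pth.single hd hn ht htd)⟩
  have hFS2 : ∀ c d, FS (fun w => (RS c w, RS d w)) := by
    intro c d
    refine ⟨hh, fun w hw => ?_⟩
    show (_, _) = _
    rw [hRS_fs c w hw, hRS_fs d w hw]; rfl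
  -- main consequences
  have Hcc : ∀ c d, theta (val0 k Δ F (fun w => (((u w, v w), se w), (RS c w, RS d w)))) := fun c d => H _ (hFS2 c d)
  have h3 : ∀ c d, (val0 k Δ F (fun w => (((u w, v w), se w), (RS c w, RS d w)))).2 3 := by
    intro c d
    exact (closed_iff hk (fun w => (((u w, v w), se w), (RS c w, RS d w))) T hT (hinT _) (fun s => s.2.1)).2 (hRSc c)
  have h4 : ∀ c d, (val0 k Δ F (fun w => (((u w, v w), se w), (RS c w, RS d w)))).2 4 := by
    intro c d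
    exact (closed_iff hk (fun w => (((u w, v w), se w), (RS c w, RS d w))) T hT (hinT _) (fun s => s.2.2)).2 (hRSc d)
  have hcover : ∀ w ∈ T, ∃ p : Fin (k+1), (se w).1 p = true := fun w hw => (Hcc (x,0) (x,0)).1 w hw
  have hsub : ∀ w (p : Fin (k+1)), (se w).1 p = true → w ∈ T := fun w p hp => (Hcc (x,0) (x,0)).2.1 w p hp
  have hfinal : ∃ f : Fin (k+1), (se y).2 f = true ∧ (f:ℕ) ∈ F := by
    have := (Hcc (x,0) (x,0)).2.2.1
    by_contra hcon
    apply this
    intro w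
    rintro ⟨hw, p, hp, hpF⟩
    have : w = y := (hy w).1 hw
    subst this
    exact hcon ⟨p, hp, hpF⟩
  obtain ⟨f, hf1, hf2⟩ := hfinal
  have hstart : ∀ w (p : Fin (k+1)), (se w).1 p = true → Reach Δ T (x,0) (w, (p:ℕ)) := by
    intro w p hp
    have := ((Hcc (x,0) (x,0)).2.2.2 (h3 _ _) (h4 _ _)).1 ?_ w p hp
    · exact (hRS _ _ _).1 this
    · intro hcon
      apply hcon x
      refine ⟨hx, (hRS _ _ _).2 ⟨[], Pth.nil (Or.inl hxT)⟩⟩
  have hend : ∀ w (p : Fin (k+1)), (se w).1 p = true → Reach Δ T (w, (p:ℕ)) (y, (f:ℕ)) := by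
    intro w p hp
    have := ((Hcc (w,(p:ℕ)) (x,0)).2.2.2 (h3 _ _) (h4 _ _)).2.1 ?_ y f hf1
    · exact (hRS _ _ _).1 this
    · intro hcon
      exact hcon w p ⟨hp, (hRS _ _ _).2 ⟨[], Pth.nil (hsub w p hp)⟩⟩
  have hchain : ∀ w (p : Fin (k+1)), (se w).1 p = true → ∀ w' (p' : Fin (k+1)), (se w').1 p' = true →
      Reach Δ T (w, (p:ℕ)) (w', (p':ℕ)) ∨ Reach Δ T (w', (p':ℕ)) (w, (p:ℕ)) := by
    intro w p hp w' p' hp'
    rcases ((Hcc (w,(p:ℕ)) (w',(p':ℕ))).2.2.2 (h3 _ _) (h4 _ _)).2.2 with h | h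
    · right
      exact (hRS _ _ _).1 (h w p hp ((hRS _ _ _).2 ⟨[], Pth.nil (hsub w p hp)⟩))
    · left
      exact (hRS _ _ _).1 (h w' p' hp' ((hRS _ _ _).2 ⟨[], Pth.nil (hsub w' p' hp')⟩))
  -- the finite set of marked configurations
  let S : Finset (Cfg n) := (hfin.toFinset ×ˢ Finset.range (k+1)).filter
    (fun c => ∃ h : c.2 < k+1, (se c.1).1 ⟨c.2, h⟩ = true)
  have hSm : ∀ c, c ∈ S ↔ ∃ h : c.2 < k+1, (se c.1).1 ⟨c.2, h⟩ = true := by
    intro c
    simp only [S, Finset.mem_filter, Finset.mem_product, Set.Finite.mem_toFinset, Finset.mem_range]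
    constructor
    · rintro ⟨_, h⟩; exact h
    · rintro ⟨h1, h2⟩; exact ⟨⟨hsub _ _ h2, h1⟩, h1, h2⟩
  have hScard : S.card ≤ M := by
    refine (Finset.card_filter_le _ _).trans ?_
    rw [Finset.card_product, Finset.card_range, ← Set.ncard_eq_toFinset_card _ hfin]
    exact hM
  have hreach0 : Reach Δ T (x,0) (y,(f:ℕ)) := by
    obtain ⟨p, hp⟩ := hcover [] hT.root
    obtain ⟨l, hl⟩ := hstart _ _ hp
    obtain ⟨l', hl'⟩ := hend _ _ hp
    exact ⟨l ++ l', hl.append hl'⟩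
  obtain ⟨l, hl, hcov, hlen⟩ := cover_path hk hfin hM (y, (f:ℕ)) S.card S rfl (x,0) (Nat.zero_le _)
    (fun s hs => by
      obtain ⟨h1, _⟩ := (hSm s).1 hs
      omega)
    hreach0
    (fun s hs => by
      obtain ⟨h1, h2⟩ := (hSm s).1 hs
      exact hstart s.1 ⟨s.2, h1⟩ h2)
    (fun s hs => by
      obtain ⟨h1, h2⟩ := (hSm s).1 hs
      exact hend s.1 ⟨s.2, h1⟩ h2)
    (fun s hs s' hs' => by
      obtain ⟨h1, h2⟩ := (hSm s).1 hs
      obtain ⟨h1', h2'⟩ := (hSm s').1 hs'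
      exact hchain s.1 ⟨s.2, h1⟩ h2 s'.1 ⟨s'.2, h1'⟩ h2')
  refine ⟨l, hl.1, ?_, ?_, ?_, ?_⟩
  · rw [hl.2.2]; exact hf2
  · rw [hl.2.2]
  · intro z
    constructor
    · intro hz
      obtain ⟨p, hp⟩ := hcover z hz
      exact ⟨(z, (p:ℕ)), hcov _ ((hSm _).2 ⟨p.2, hp⟩), rfl⟩
    · rintro ⟨d, hd, rfl⟩
      exact hl.2.1 d hd
  · refine hlen.trans (Nat.mul_le_mul_right _ (by omega))

end Pool.Agent.RecFIM
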