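import Mathlib
import Pool.Agent.Lib.MP_5c1719_al.Equiv

set_option autoImplicit false

namespace Pool.Agent.RecFIM

variable {n : ℕ}

abbrev QV (n : ℕ) := (EL × (Ltr n → EL)) × (Unit → Prop)

instance instFinLab0 (k : ℕ) : Finite (Lab0 k) := inferInstance
instance instFinLF (k : ℕ) : Finite (Ltr n → Lab0 k) := inferInstance
instance instFinQ0 (k : ℕ) : Finite (Q0 n k) := inferInstance
instance instFinSQ0 (k : ℕ) : Finite (Set (Q0 n k)) := inferInstance
instance instFinSSQ0 (k : ℕ) : Finite (Set (Set (Q0 n k))) := inferInstance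
instance instFinQV : Finite (QV n) := inferInstance

def vlocV : (List (Ltr n) → EL) → QV n := vloc (fun _ : Unit => PV)

def okV (q : QV n) : Prop := q.1.1.1 = true ∧ q.1.1.2 = true ∧ q.2 ()

theorem okV_iff (v : List (Ltr n) → EL) : okV (vlocV v) ↔ Valid v := Iff.rfl

theorem Comp_vlocV : Comp (vlocV (n := n)) := Comp_vloc _

theorem Comp_val2 (k : ℕ) (Δ : List (Tr n)) (F : List ℕ) : Comp (val2 k Δ F) :=
  ((Comp_vloc (PW Δ F)).pval).pval

/-- equivalence of elements -/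
def EE (k : ℕ) (Δ : List (Tr n)) (F : List ℕ) (u u' : List (Ltr n) → EL) : Prop :=
  ∀ v, FS v → Valid v → (Wf k Δ F u v ↔ Wf k Δ F u' v)

abbrev Q3' (n k : ℕ) := Set (Set (Q0 n k)) × (Set (Set (Q0 n k)) × QV n)

instance instFinQ3' (k : ℕ) : Finite (Q3' n k) := inferInstance
instance instFinSQ3' (k : ℕ) : Finite (Set (Q3' n k)) := inferInstance

def val3' (k : ℕ) (Δ : List (Tr n)) (F : List ℕ) (t : List (Ltr n) → (EL × EL) × EL) : Q3' n k :=
  (val2 k Δ F (fun w => ((t w).1.1, (t w).2)), (val2 k Δ F (fun w => ((t w).1.2, (t w).2)),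
    vlocV (fun w => (t w).2)))

theorem Comp_val3' (k : ℕ) (Δ : List (Tr n)) (F : List ℕ) : Comp (val3' k Δ F) :=
  ((Comp_val2 k Δ F).relabel (fun s : (EL × EL) × EL => (s.1.1, s.2))).prod
    (((Comp_val2 k Δ F).relabel (fun s : (EL × EL) × EL => (s.1.2, s.2))).prod
      (Comp_vlocV.relabel (fun s : (EL × EL) × EL => s.2)))

def val3 (k : ℕ) (Δ : List (Tr n)) (F : List ℕ) : (List (Ltr n) → EL × EL) → Set (Q3' n k) :=
  pval (val3' k Δ F)

theorem Comp_val3 (k : ℕ) (Δ : List (Tr n)) (F : List ℕ) : Comp (val3 k Δ F) := (Comp_val3' k Δ F).pval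

def GE {k : ℕ} (X : Set (Q3' n k)) : Prop := ∀ q ∈ X, okV q.2.2 → (G2 q.1 ↔ G2 q.2.1)

theorem EE_iff (k : ℕ) (Δ : List (Tr n)) (F : List ℕ) (u u' : List (Ltr n) → EL) :
    EE k Δ F u u' ↔ GE (val3 k Δ F (fun w => (u w, u' w))) := by
  constructor
  · rintro h q ⟨v, hv, rfl⟩ hok
    exact h v hv hok
  · intro h v hv hval
    exact h _ ⟨v, hv, rfl⟩ hval

/-- short separating elements -/
theorem EE_short (k : ℕ) (Δ : List (Tr n)) (F : List ℕ) {u u' : List (Ltr n) → EL} {h : ℕ}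
    (hu : HB u h) (hu' : HB u' h)
    (H : ∀ v, HB v (h + Nat.card (Q3' n k)) → Valid v → (Wf k Δ F u v ↔ Wf k Δ F u' v)) :
    EE k Δ F u u' := by
  intro v hv hval
  have hs : HB (fun w => (u w, u' w)) h := by
    intro w hw
    show (_, _) = _
    rw [hu w hw, hu' w hw]; rfl
  obtain ⟨v', hv', heq⟩ := rel_pump (Comp_val3' k Δ F) h _ hs v hv
  have h1 : val2 k Δ F (fun w => (u w, v' w)) = val2 k Δ F (fun w => (u w, v w)) := congrArg Prod.fst heq
  have h2 : val2 k Δ F (fun w => (u' w, v' w)) = val2 k Δ F (fun w => (u' w, v w)) :=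
    congrArg (fun q => q.2.1) heq
  have h3 : vlocV v' = vlocV v := congrArg (fun q => q.2.2) heq
  have hv'val : Valid v' := by rw [← okV_iff, h3]; exact hval
  have := H v' hv' hv'val
  unfold Wf at *
  rw [h1, h2] at this
  exact this

def PB (s : Bool × EL) (_ : Ltr n → Bool × EL) (_ : Ltr n → Ltr n → Bool × EL) : Prop :=
  s.2.1 = true → s.1 = true

abbrev QB (n : ℕ) := ((Bool × EL) × (Ltr n → Bool × EL)) × (Unit → Prop)

def vlocB : (List (Ltr n) → Bool × EL) → QB n := vloc (fun _ : Unit => PB)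

def okB (q : QB n) : Prop := q.2 ()

abbrev Q4' (n k : ℕ) := Set (Q3' n k) × (QB n × QV n)

instance instFinQB : Finite (QB n) := inferInstance
instance instFinQ4' (k : ℕ) : Finite (Q4' n k) := inferInstance
instance instFinSQ4' (k : ℕ) : Finite (Set (Q4' n k)) := inferInstance

def val4' (k : ℕ) (Δ : List (Tr n)) (F : List ℕ) (t : List (Ltr n) → (Bool × EL) × EL) : Q4' n k :=
  (val3 k Δ F (fun w => ((t w).1.2, (t w).2)), (vlocB (fun w => ((t w).1.1, (t w).2)),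
    vlocV (fun w => (t w).2)))

theorem Comp_val4' (k : ℕ) (Δ : List (Tr n)) (F : List ℕ) : Comp (val4' k Δ F) :=
  ((Comp_val3 k Δ F).relabel (fun s : (Bool × EL) × EL => (s.1.2, s.2))).prod
    (((Comp_vloc (fun _ : Unit => PB)).relabel (fun s : (Bool × EL) × EL => (s.1.1, s.2))).prod
      (Comp_vlocV.relabel (fun s : (Bool × EL) × EL => s.2)))

def val4 (k : ℕ) (Δ : List (Tr n)) (F : List ℕ) : (List (Ltr n) → Bool × EL) → Set (Q4' n k) :=
  pval (val4' k Δ F)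

abbrev Q5' (n k : ℕ) := Set (Q4' n k) × QV n

instance instFinQ5' (k : ℕ) : Finite (Q5' n k) := inferInstance
instance instFinSQ5' (k : ℕ) : Finite (Set (Q5' n k)) := inferInstance

def val5' (k : ℕ) (Δ : List (Tr n)) (F : List ℕ) (t : List (Ltr n) → Bool × EL) : Q5' n k :=
  (val4 k Δ F t, vlocV (fun w => (t w).2))

theorem Comp_val5' (k : ℕ) (Δ : List (Tr n)) (F : List ℕ) : Comp (val5' k Δ F) :=
  ((Comp_val4' k Δ F).pval).prod (Comp_vlocV.relabel (fun s : Bool × EL => s.2))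

def val5 (k : ℕ) (Δ : List (Tr n)) (F : List ℕ) : (List (Ltr n) → Bool) → Set (Q5' n k) :=
  pval (val5' k Δ F)

theorem Comp_val5 (k : ℕ) (Δ : List (Tr n)) (F : List ℕ) : Comp (val5 k Δ F) := (Comp_val5' k Δ F).pval

def psi (k : ℕ) (Δ : List (Tr n)) (F : List ℕ) (B : List (Ltr n) → Bool) : Prop :=
  ∀ u, FS u → Valid u → ∃ u', FS u' ∧ Valid u' ∧ (∀ w, (u' w).1 = true → B w = true) ∧ EE k Δ F u u'

def G5 {k : ℕ} (X : Set (Q5' n k)) : Prop :=
  ∀ q ∈ X, okV q.2 → ∃ r ∈ q.1, okB r.2.1 ∧ okV r.2.2 ∧ GE r.1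

theorem psi_iff (k : ℕ) (Δ : List (Tr n)) (F : List ℕ) (B : List (Ltr n) → Bool) :
    psi k Δ F B ↔ G5 (val5 k Δ F B) := by
  constructor
  · rintro h q ⟨u, hu, rfl⟩ hok
    obtain ⟨u', hu', hv', hB, hE⟩ := h u hu hok
    exact ⟨_, ⟨u', hu', rfl⟩, hB, hv', (EE_iff k Δ F u u').1 hE⟩
  · intro h u hu hval
    obtain ⟨r, ⟨u', hu', rfl⟩, hB, hv', hE⟩ := h _ ⟨u, hu, rfl⟩ hval
    exact ⟨u', hu', hv', hB, (EE_iff k Δ F u u').2 hE⟩

theorem small_reps (k : ℕ) (Δ : List (Tr n)) (F : List ℕ)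
    (H : ∃ h, ∀ u, FS u → Valid u → ∃ u', HB u' h ∧ Valid u' ∧ EE k Δ F u u') :
    ∀ u, FS u → Valid u → ∃ u', HB u' (Nat.card (Set (Q5' n k))) ∧ Valid u' ∧ EE k Δ F u u' := by
  classical
  obtain ⟨h, hh⟩ := H
  have hpsi : psi k Δ F (fun w => decide (w.length < h)) := by
    intro u hu hval
    obtain ⟨u', h1, h2, h3⟩ := hh u hu hval
    refine ⟨u', ⟨h, h1⟩, h2, ?_, h3⟩
    intro w hw
    by_contra hcon
    have : h ≤ w.length := by simpa using hcon
    rw [h1 w this] at hw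
    exact absurd hw (by decide)
  have hfs : FS (fun w : List (Ltr n) => decide (w.length < h)) := ⟨h, fun w hw => by
    have : ¬ w.length < h := by omega
    simp [this]⟩
  obtain ⟨B, hB1, hB2⟩ := pump (Comp_val5 k Δ F) hfs
  have hpsi' : psi k Δ F B := by
    rw [psi_iff, hB2, ← psi_iff]; exact hpsi
  intro u hu hval
  obtain ⟨u', _, h2, h3, h4⟩ := hpsi' u hu hval
  refine ⟨u', ?_, h2, h4⟩
  intro w hw
  have hBw : B w = false := hB1 w hw
  have h1 : (u' w).1 = false := by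
    by_contra hcon
    have := h3 w (by simpa using hcon)
    rw [hBw] at this; simp at this
  have h2' : (u' w).2 = false := by
    cases w with
    | nil =>
      have := h2.1
      rw [h1] at this; simp at this
    | cons a w' =>
      by_contra hcon
      have := ((h2.2.2 w').2.1 a (by simpa using hcon)).2
      rw [h1] at this; simp at this
  exact Prod.ext h1 h2'

/-! explicit bounds for the number of states -/

theorem card_set_eq (α : Type) [Finite α] : Nat.card (Set α) = 2 ^ Nat.card α := by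
  classical
  have := Fintype.ofFinite α
  rw [Nat.card_eq_fintype_card, Nat.card_eq_fintype_card, Fintype.card_set]

theorem card_fun_prop (ι : Type) [Finite ι] : Nat.card (ι → Prop) = 2 ^ Nat.card ι := card_set_eq ι

def bLab (k : ℕ) : ℕ := 4 * 4 * (2 ^ (k+1) * 2 ^ (k+1)) * (2 ^ (k+1) * 2 ^ (k+1))

def bQ0 (n k : ℕ) : ℕ := bLab k * bLab k ^ (n + n) * 2 ^ 11

def bQ3' (n k : ℕ) : ℕ := 2 ^ (2 ^ bQ0 n k) * (2 ^ (2 ^ bQ0 n k) * (4 * 4 ^ (n+n) * 2))

def bQ4' (n k : ℕ) : ℕ := 2 ^ bQ3' n k * (8 * 8 ^ (n+n) * 2 * (4 * 4 ^ (n+n) * 2))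

def bQ5' (n k : ℕ) : ℕ := 2 ^ bQ4' n k * (4 * 4 ^ (n+n) * 2)

def bQ5 (n k : ℕ) : ℕ := 2 ^ bQ5' n k

theorem card_Ltr : Nat.card (Ltr n) = n + n := by simp

theorem card_EL : Nat.card EL = 4 := by simp [EL]

theorem card_QV : Nat.card (QV n) = 4 * 4 ^ (n+n) * 2 := by
  rw [Nat.card_prod, Nat.card_prod, Nat.card_fun, card_fun_prop, card_EL, card_Ltr]
  simp

theorem card_QB : Nat.card (QB n) = 8 * 8 ^ (n+n) * 2 := by
  rw [Nat.card_prod, Nat.card_prod, Nat.card_fun, card_fun_prop, Nat.card_prod, card_EL, card_Ltr]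
  simp

theorem card_St (k : ℕ) : Nat.card (St k) = 2 ^ (k+1) := by
  rw [Nat.card_fun]; simp

theorem card_Lab0 (k : ℕ) : Nat.card (Lab0 k) = bLab k := by
  simp only [Lab0, EL, Nat.card_prod, card_St, bLab]
  simp

theorem card_Q0 (k : ℕ) : Nat.card (Q0 n k) = bQ0 n k := by
  rw [Nat.card_prod, Nat.card_prod, Nat.card_fun, card_fun_prop, card_Lab0, card_Ltr]
  simp [bQ0]

theorem card_Q3' (k : ℕ) : Nat.card (Q3' n k) = bQ3' n k := by
  rw [Nat.card_prod, Nat.card_prod, card_set_eq, card_set_eq, card_Q0, card_QV]; rfl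

theorem card_Q4' (k : ℕ) : Nat.card (Q4' n k) = bQ4' n k := by
  rw [Nat.card_prod, Nat.card_prod, card_set_eq, card_Q3', card_QV, card_QB]; rfl

theorem card_Q5' (k : ℕ) : Nat.card (Q5' n k) = bQ5' n k := by
  rw [Nat.card_prod, card_set_eq, card_Q4', card_QV]; rfl

theorem card_Q5 (k : ℕ) : Nat.card (Set (Q5' n k)) = bQ5 n k := by
  rw [card_set_eq, card_Q5']; rfl

end Pool.Agent.RecFIM
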