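import Mathlib
import Pool.Agent.Lib.MP_5c1719_al.Bounds

set_option autoImplicit false

namespace Pool.Agent.RecFIM

variable {n : ℕ}

/-- nodes visited when reading a word from node `x` -/
def trW (x : List (Ltr n)) : List (Ltr n) → List (List (Ltr n))
  | [] => [x]
  | a :: w => x :: trW (move a x) w

/-- end node when reading a word from node `x` -/
def endW (x : List (Ltr n)) : List (Ltr n) → List (Ltr n)
  | [] => x
  | a :: w => endW (move a x) w

/-- value of a letter in the free group -/
def evl (a : Ltr n) : FreeGroup (Fin n) :=
  Sum.elim (fun i : Fin n => FreeGroup.of i) (fun i : Fin n => (FreeGroup.of i)⁻¹) a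

def ev (w : List (Ltr n)) : FreeGroup (Fin n) := (w.map evl).prod

/-- group element of a node -/
def gr : List (Ltr n) → FreeGroup (Fin n)
  | [] => 1
  | a :: w => gr w * evl a

/-- reduced node -/
def IsRed : List (Ltr n) → Prop
  | [] => True
  | [_] => True
  | b :: a :: w => b ≠ linv a ∧ IsRed (a :: w)

theorem evl_linv (a : Ltr n) : evl (linv a) = (evl a)⁻¹ := by
  rcases a with a | a <;> simp [evl, linv]

theorem gr_move (a : Ltr n) (w : List (Ltr n)) : gr (move a w) = gr w * evl a := by
  cases w with
  | nil => simp [move, gr]
  | cons b w' =>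
    by_cases hb : b = linv a
    · subst hb
      simp [move, gr, evl_linv]
    · simp [move, hb, gr]

theorem IsRed.tail {a : Ltr n} {w : List (Ltr n)} (h : IsRed (a :: w)) : IsRed w := by
  cases w with
  | nil => trivial
  | cons b w' => exact h.2

theorem IsRed.move {w : List (Ltr n)} (h : IsRed w) (a : Ltr n) : IsRed (move a w) := by
  cases w with
  | nil => trivial
  | cons b w' =>
    by_cases hb : b = linv a
    · simp only [RecFIM.move, hb, if_true]
      exact h.tail
    · simp only [RecFIM.move, hb, if_false]
      refine ⟨fun hab => hb ?_, h⟩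
      rw [hab, linv_linv]

def conv (a : Ltr n) : Fin n × Bool :=
  match a with
  | Sum.inl i => (i, true)
  | Sum.inr i => (i, false)

theorem evl_eq (a : Ltr n) : evl a = FreeGroup.mk [conv a] := by
  rcases a with a | a
  · rfl
  · simp [evl, conv, FreeGroup.of, FreeGroup.inv_mk, FreeGroup.invRev]

theorem gr_eq (w : List (Ltr n)) : gr w = FreeGroup.mk (w.reverse.map conv) := by
  induction w with
  | nil => rfl
  | cons a w ih => simp [gr, ih, evl_eq]

theorem conv_inj {a b : Ltr n} (h : conv a = conv b) : a = b := by
  rcases a with a | a <;> rcases b with b | b <;> simp_all [conv]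

theorem conv_red {a b : Ltr n} (h : b ≠ linv a) : (conv a).1 = (conv b).1 → (conv a).2 = (conv b).2 := by
  rcases a with a | a <;> rcases b with b | b <;> simp_all [conv, linv]
  · intro h'; exact absurd h'.symm h
  · intro h'; exact absurd h'.symm h

theorem isReduced_of_IsRed (w : List (Ltr n)) (h : IsRed w) : FreeGroup.IsReduced (w.reverse.map conv) := by
  unfold FreeGroup.IsReduced
  rw [List.isChain_map, List.isChain_reverse]
  induction w with
  | nil => exact List.isChain_nil
  | cons b w ih =>
    cases w with
    | nil => exact List.isChain_singleton _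
    | cons a w' =>
      rw [List.isChain_cons_cons]
      refine ⟨?_, ih h.2⟩
      exact conv_red h.1

theorem gr_inj {w w' : List (Ltr n)} (h : IsRed w) (h' : IsRed w') (he : gr w = gr w') : w = w' := by
  have h1 := congrArg FreeGroup.toWord he
  rw [gr_eq, gr_eq, FreeGroup.toWord_mk, FreeGroup.toWord_mk,
    (isReduced_of_IsRed w h).reduce_eq, (isReduced_of_IsRed w' h').reduce_eq] at h1
  have h2 := List.map_injective_iff.2 (fun a b => conv_inj (a := a) (b := b)) h1
  simpa using congrArg List.reverse h2

theorem endW_append (x w w' : List (Ltr n)) : endW x (w ++ w') = endW (endW x w) w' := by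
  induction w generalizing x with
  | nil => rfl
  | cons a w ih => simp [endW, ih]

theorem endW_mem (x w : List (Ltr n)) : endW x w ∈ trW x w := by
  induction w generalizing x with
  | nil => simp [endW, trW]
  | cons a w ih => simp [endW, trW, ih]

theorem start_mem (x w : List (Ltr n)) : x ∈ trW x w := by
  cases w <;> simp [trW]

theorem mem_trW_append (x w w' z : List (Ltr n)) :
    z ∈ trW x (w ++ w') ↔ z ∈ trW x w ∨ z ∈ trW (endW x w) w' := by
  induction w generalizing x with
  | nil =>
    simp only [List.nil_append, trW, endW, List.mem_singleton]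
    constructor
    · exact Or.inr
    · rintro (rfl | h)
      · exact start_mem _ _
      · exact h
  | cons a w ih => simp [trW, endW, ih, or_assoc]

theorem gr_endW (x w : List (Ltr n)) : gr (endW x w) = gr x * ev w := by
  induction w generalizing x with
  | nil => simp [endW, ev]
  | cons a w ih =>
    rw [endW, ih, gr_move]
    simp [ev, mul_assoc]

theorem IsRed.endW {x : List (Ltr n)} (h : IsRed x) (w : List (Ltr n)) : IsRed (endW x w) := by
  induction w generalizing x with
  | nil => exact h
  | cons a w ih => exact ih (h.move a)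

theorem IsRed.trW {x : List (Ltr n)} (h : IsRed x) (w : List (Ltr n)) : ∀ z ∈ trW x w, IsRed z := by
  induction w generalizing x with
  | nil => simpa [RecFIM.trW] using h
  | cons a w ih =>
    intro z hz
    simp only [RecFIM.trW, List.mem_cons] at hz
    rcases hz with rfl | hz
    · exact h
    · exact ih (h.move a) z hz

theorem mem_trW_iff (x w z : List (Ltr n)) : z ∈ trW x w ↔ ∃ k, z = endW x (w.take k) := by
  induction w generalizing x with
  | nil => simp [trW, endW]
  | cons a w ih =>
    simp only [trW, List.mem_cons, ih]
    constructor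
    · rintro (rfl | ⟨k, rfl⟩)
      · exact ⟨0, rfl⟩
      · exact ⟨k+1, rfl⟩
    · rintro ⟨k, rfl⟩
      cases k with
      | zero => left; rfl
      | succ k => right; exact ⟨k, rfl⟩

/-- prefix set -/
def PS (w : List (Ltr n)) : Set (FreeGroup (Fin n)) := {g | ∃ k : ℕ, ev (w.take k) = g}

theorem mem_trW_iff_PS {x : List (Ltr n)} (hx : IsRed x) (w z : List (Ltr n)) :
    z ∈ trW x w ↔ IsRed z ∧ (gr x)⁻¹ * gr z ∈ PS w := by
  constructor
  · intro h
    refine ⟨hx.trW w z h, ?_⟩
    obtain ⟨k, rfl⟩ := (mem_trW_iff _ _ _).1 h
    refine ⟨k, ?_⟩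
    rw [gr_endW]; simp
  · rintro ⟨hz, k, hk⟩
    rw [mem_trW_iff]
    refine ⟨k, gr_inj hz (hx.endW _) ?_⟩
    rw [gr_endW, hk]; simp

theorem PS_eq_iff {x : List (Ltr n)} (hx : IsRed x) (w v : List (Ltr n)) :
    PS w = PS v ↔ ∀ z, z ∈ trW x w ↔ z ∈ trW x v := by
  constructor
  · intro h z
    rw [mem_trW_iff_PS hx, mem_trW_iff_PS hx, h]
  · intro h
    have key : ∀ w v, (∀ z, z ∈ trW x w ↔ z ∈ trW x v) → PS w ⊆ PS v := by
      rintro w v h g ⟨k, rfl⟩
      have : endW x (w.take k) ∈ trW x v := (h _).1 ((mem_trW_iff _ _ _).2 ⟨k, rfl⟩)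
      obtain ⟨_, k', hk'⟩ := (mem_trW_iff_PS hx _ _).1 this
      refine ⟨k', ?_⟩
      rw [hk', gr_endW]; simp
    exact Set.Subset.antisymm (key w v h) (key v w (fun z => (h z).symm))

theorem ev_eq_iff {x : List (Ltr n)} (hx : IsRed x) (w v : List (Ltr n)) :
    ev w = ev v ↔ endW x w = endW x v := by
  constructor
  · intro h
    apply gr_inj (hx.endW _) (hx.endW _)
    rw [gr_endW, gr_endW, h]
  · intro h
    have := congrArg gr h
    rw [gr_endW, gr_endW] at this
    exact mul_left_cancel this

/-- inverse word -/
def winv (w : List (Ltr n)) : List (Ltr n) := (w.map linv).reverse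

@[simp] theorem winv_winv (w : List (Ltr n)) : winv (winv w) = w := by
  simp [winv, Function.comp_def]

@[simp] theorem winv_length (w : List (Ltr n)) : (winv w).length = w.length := by
  simp [winv]

theorem winv_cons (a : Ltr n) (w : List (Ltr n)) : winv (a :: w) = winv w ++ [linv a] := by
  simp [winv]

theorem move_linv_move {x : List (Ltr n)} (hx : IsRed x) (a : Ltr n) :
    move (linv a) (move a x) = x := by
  apply gr_inj ((hx.move a).move _) hx
  rw [gr_move, gr_move, evl_linv]; simp

theorem endW_winv {x : List (Ltr n)} (hx : IsRed x) (w : List (Ltr n)) :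
    endW (endW x w) (winv w) = x := by
  induction w generalizing x with
  | nil => rfl
  | cons a w ih =>
    rw [winv_cons, endW_append]
    show endW (endW (endW (move a x) w) (winv w)) [linv a] = x
    rw [ih (hx.move a)]
    exact move_linv_move hx a

theorem trW_winv {x : List (Ltr n)} (hx : IsRed x) (w z : List (Ltr n)) :
    z ∈ trW (endW x w) (winv w) ↔ z ∈ trW x w := by
  induction w generalizing x with
  | nil => rfl
  | cons a w ih =>
    rw [winv_cons, mem_trW_append]
    show z ∈ trW (endW (move a x) w) (winv w) ∨ z ∈ trW (endW (endW (move a x) w) (winv w)) [linv a] ↔ _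
    rw [ih (hx.move a), endW_winv (hx.move a)]
    simp only [trW, List.mem_cons, List.not_mem_nil, or_false, move_linv_move hx]
    constructor
    · rintro (h | rfl | rfl)
      · exact Or.inr h
      · exact Or.inr (start_mem _ _)
      · exact Or.inl rfl
    · rintro (rfl | h)
      · exact Or.inr (Or.inr rfl)
      · exact Or.inl h

/-- the visited set from the root is closed under parents -/
theorem trW_parent (w : List (Ltr n)) : ∀ a z, a :: z ∈ trW [] w → z ∈ trW [] w := by
  induction w using List.reverseRecOn with
  | nil => intro a z h; simp [trW] at h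
  | append_singleton w b ih =>
    intro a z h
    rw [mem_trW_append] at h ⊢
    have h0 : endW [] w ∈ trW [] w := endW_mem _ _
    rcases h with h | h
    · exact Or.inl (ih a z h)
    · simp only [trW, List.mem_cons, List.not_mem_nil, or_false] at h
      rcases h with h | h
      · left; apply ih a; rw [h]; exact h0
      · left
        cases hx : endW [] w with
        | nil =>
          rw [hx] at h
          simp only [move, List.cons.injEq] at h
          rw [h.2]; exact start_mem _ _
        | cons c x' =>
          rw [hx] at h h0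
          by_cases hc : c = linv b
          · simp only [move, hc, if_true] at h
            have := ih c x' h0
            rw [← h] at this
            exact ih a z this
          · simp only [move, hc, if_false, List.cons.injEq] at h
            rw [h.2]; exact h0

theorem trW_suffix (w : List (Ltr n)) {x z : List (Ltr n)} (hx : x ∈ trW [] w) (hz : z <:+ x) :
    z ∈ trW [] w := by
  obtain ⟨t, rfl⟩ := hz
  induction t with
  | nil => exact hx
  | cons a t ih => exact ih (trW_parent w a _ hx)

theorem trW_length (x w : List (Ltr n)) : ∀ z ∈ trW x w, z.length ≤ x.length + w.length := by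
  induction w generalizing x with
  | nil => intro z hz; simp [trW] at hz; subst hz; simp
  | cons a w ih =>
    intro z hz
    simp only [trW, List.mem_cons] at hz
    rcases hz with rfl | hz
    · simp
    · have := ih _ z hz
      have h2 : (move a x).length ≤ x.length + 1 := by
        cases x with
        | nil => simp [move]
        | cons b x' =>
          by_cases hb : b = linv a
          · simp [move, hb]; omega
          · simp [move, hb]
      simp only [List.length_cons]
      omega

open Classical in
/-- labelling of a word -/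
noncomputable def lab (w : List (Ltr n)) : List (Ltr n) → EL := fun z =>
  (decide (z ∈ trW [] w), decide (z <:+ endW [] w))

theorem lab_fst (w z : List (Ltr n)) : (lab w z).1 = true ↔ z ∈ trW [] w := by simp [lab]
theorem lab_snd (w z : List (Ltr n)) : (lab w z).2 = true ↔ z <:+ endW [] w := by simp [lab]

theorem tset_lab (w : List (Ltr n)) : tset (lab w) = {z | z ∈ trW [] w} := by
  ext z; exact lab_fst w z

theorem suffix_cons_inj {a b : Ltr n} {z x : List (Ltr n)} (h : a :: z <:+ x) (h' : b :: z <:+ x) :
    a = b := by
  have := List.IsSuffix.eq_of_length (List.suffix_of_suffix_length_le h h' (by simp)) (by simp)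
  simpa using this

theorem lab_valid (w : List (Ltr n)) : Valid (lab w) := by
  refine ⟨(lab_fst w _).2 (start_mem _ _), (lab_snd w _).2 List.nil_suffix, ?_⟩
  intro z
  refine ⟨?_, ?_, ?_, ?_⟩
  · intro a h
    rw [lab_fst] at *
    exact trW_parent w a z h
  · intro a h
    rw [lab_snd] at *
    rw [lab_fst]
    refine ⟨(List.suffix_cons a z).trans h, trW_suffix w (endW_mem _ _) h⟩
  · intro a b h h'
    rw [lab_snd] at h h'
    exact suffix_cons_inj h h'
  · intro a b h
    rw [lab_fst] at h
    have := IsRed.trW (x := []) trivial w _ h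
    exact this.1

theorem lab_isEnd (w x : List (Ltr n)) : IsEnd (lab w) x ↔ x = endW [] w := by
  constructor
  · rintro ⟨h1, h2⟩
    rw [lab_snd] at h1
    obtain ⟨t, ht⟩ := h1
    rcases List.eq_nil_or_concat t with rfl | ⟨t', a, rfl⟩
    · simpa using ht
    · exfalso
      have h3 : (lab w (a :: x)).2 = true := by
        rw [lab_snd]
        refine ⟨t', ?_⟩
        rw [← ht]; simp
      rw [h2 a] at h3
      exact Bool.noConfusion h3
  · rintro rfl
    refine ⟨(lab_snd w _).2 List.suffix_rfl, ?_⟩
    intro a
    by_contra hcon
    have h3 : (lab w (a :: endW [] w)).2 = true := by simpa using hcon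
    rw [lab_snd] at h3
    have := h3.length_le
    simp at this

theorem lab_HB (w : List (Ltr n)) : HB (lab w) (w.length + 1) := by
  intro z hz
  have h1 : (lab w z).1 = false := by
    by_contra hcon
    have h3 : (lab w z).1 = true := by simpa using hcon
    rw [lab_fst] at h3
    have := trW_length _ _ _ h3
    simp at this
    omega
  have h2 : (lab w z).2 = false := by
    by_contra hcon
    have h3 : (lab w z).2 = true := by simpa using hcon
    rw [lab_snd] at h3
    have h4 := h3.length_le
    have := trW_length _ _ _ (endW_mem [] w)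
    simp at this
    omega
  exact Prod.ext h1 h2

/-- all words of length at most `N` -/
def letters (n : ℕ) : List (Ltr n) :=
  (List.finRange n).map Sum.inl ++ (List.finRange n).map Sum.inr

theorem mem_letters (a : Ltr n) : a ∈ letters n := by
  rcases a with a | a <;> simp [letters]

def words (n : ℕ) : ℕ → List (List (Ltr n))
  | 0 => [[]]
  | N+1 => [] :: (words n N).flatMap (fun w => (letters n).map (fun a => a :: w))

theorem mem_words (N : ℕ) (w : List (Ltr n)) : w ∈ words n N ↔ w.length ≤ N := by
  induction N generalizing w with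
  | zero => simp [words]
  | succ N ih =>
    simp only [words, List.mem_cons, List.mem_flatMap, List.mem_map]
    cases w with
    | nil => simp
    | cons a w =>
      simp only [reduceCtorEq, false_or, List.cons.injEq, List.length_cons]
      constructor
      · rintro ⟨w', hw', a', _, rfl, rfl⟩
        have := (ih w').1 hw'
        omega
      · intro h
        exact ⟨w, (ih w).2 (by omega), a, mem_letters a, rfl, rfl⟩

def bnd (n h : ℕ) : ℕ := (words n h).length * (2 * h) + h

theorem goTo {z : List (Ltr n)} (hz : IsRed z) : endW [] z.reverse = z ∧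
    ∀ y, y ∈ trW [] z.reverse ↔ y <:+ z := by
  induction z with
  | nil => simp [endW, trW]
  | cons a z ih =>
    obtain ⟨h1, h2⟩ := ih hz.tail
    have hm : move a z = a :: z := by
      cases z with
      | nil => rfl
      | cons b z' =>
        have : b ≠ linv a := by
          intro hb; apply hz.1; rw [hb, linv_linv]
        simp [move, this]
    constructor
    · rw [List.reverse_cons, endW_append, h1]; exact hm
    · intro y
      rw [List.reverse_cons, mem_trW_append, h1, h2]
      simp only [trW, List.mem_cons, List.not_mem_nil, or_false, hm, List.suffix_cons_iff]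
      constructor
      · rintro (h | rfl | rfl)
        · exact Or.inr h
        · exact Or.inr List.suffix_rfl
        · exact Or.inl rfl
      · rintro (rfl | h)
        · exact Or.inr (Or.inr rfl)
        · exact Or.inl h

def tour : List (List (Ltr n)) → List (Ltr n)
  | [] => []
  | z :: Z => z.reverse ++ (winv z.reverse ++ tour Z)

theorem tour_spec (Z : List (List (Ltr n))) (hZ : ∀ z ∈ Z, IsRed z) :
    endW [] (tour Z) = [] ∧ ∀ y, y ∈ trW [] (tour Z) ↔ y = [] ∨ ∃ z ∈ Z, y <:+ z := by
  induction Z with
  | nil => simp [tour, endW, trW]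
  | cons z Z ih =>
    obtain ⟨h1, h2⟩ := ih (fun z hz => hZ z (by simp [hz]))
    obtain ⟨g1, g2⟩ := goTo (hZ z (by simp))
    have e1 : endW z (winv z.reverse) = [] := by
      have := endW_winv (x := ([] : List (Ltr n))) trivial z.reverse
      rwa [g1] at this
    have e2 : ∀ y, y ∈ trW z (winv z.reverse) ↔ y ∈ trW [] z.reverse := by
      intro y
      have := trW_winv (x := ([] : List (Ltr n))) trivial z.reverse y
      rwa [g1] at this
    constructor
    · rw [tour, endW_append, endW_append, g1, e1, h1]
    · intro y
      rw [tour, mem_trW_append, mem_trW_append, g1, e1, e2, g2, h2]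
      simp only [List.mem_cons, exists_eq_or_imp]
      tauto

theorem tour_length (Z : List (List (Ltr n))) (h : ℕ) (hZ : ∀ z ∈ Z, z.length ≤ h) :
    (tour Z).length ≤ Z.length * (2 * h) := by
  induction Z with
  | nil => simp [tour]
  | cons z Z ih =>
    have h1 := ih (fun z hz => hZ z (by simp [hz]))
    have h2 := hZ z (by simp)
    simp only [tour, List.length_append, List.length_reverse, winv_length, List.length_cons]
    rw [Nat.add_mul]
    omega

theorem Valid.red {u : List (Ltr n) → EL} (hu : Valid u) : ∀ z, (u z).1 = true → IsRed z := by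
  intro z
  induction z with
  | nil => intro _; trivial
  | cons a z ih =>
    intro h
    have hz := (hu.2.2 z).1 a h
    cases z with
    | nil => trivial
    | cons b z' =>
      exact ⟨(hu.2.2 z').2.2.2 b a h, ih hz⟩

theorem Valid.closed {u : List (Ltr n) → EL} (hu : Valid u) {y z : List (Ltr n)} (h : y <:+ z)
    (hz : (u z).1 = true) : (u y).1 = true := by
  obtain ⟨t, rfl⟩ := h
  induction t with
  | nil => exact hz
  | cons a t ih => exact ih ((hu.2.2 _).1 a hz)

theorem Valid.closed2 {u : List (Ltr n) → EL} (hu : Valid u) {y z : List (Ltr n)} (h : y <:+ z)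
    (hz : (u z).2 = true) : (u y).2 = true := by
  obtain ⟨t, rfl⟩ := h
  induction t with
  | nil => exact hz
  | cons a t ih => exact ih ((hu.2.2 _).2.1 a hz).1

theorem Valid.sub2 {u : List (Ltr n) → EL} (hu : Valid u) {z : List (Ltr n)}
    (hz : (u z).2 = true) : (u z).1 = true := by
  cases z with
  | nil => exact hu.1
  | cons a z => exact ((hu.2.2 z).2.1 a hz).2

theorem Valid.exists_end {u : List (Ltr n) → EL} (hu : Valid u) {h : ℕ} (hh : HB u h) :
    ∃ x, x.length < h + 1 ∧ ∀ z, (u z).2 = true ↔ z <:+ x := by
  classical
  -- choose x of maximal length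
  have hex : ∃ m, m ≤ h ∧ ∃ x : List (Ltr n), x.length = m ∧ (u x).2 = true := ⟨0, Nat.zero_le _, [], rfl, hu.2.1⟩
  obtain ⟨m, ⟨hm, x, hx, hx2⟩, hmax⟩ : ∃ m, (m ≤ h ∧ ∃ x : List (Ltr n), x.length = m ∧ (u x).2 = true) ∧
      ∀ m', (m' ≤ h ∧ ∃ x : List (Ltr n), x.length = m' ∧ (u x).2 = true) → m' ≤ m := by
    refine ⟨Nat.findGreatest (fun m => m ≤ h ∧ ∃ x : List (Ltr n), x.length = m ∧ (u x).2 = true) h, ?_, ?_⟩
    · exact Nat.findGreatest_spec (P := fun m => m ≤ h ∧ ∃ x : List (Ltr n), x.length = m ∧ (u x).2 = true) (Nat.zero_le h) ⟨Nat.zero_le _, [], rfl, hu.2.1⟩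
    · rintro m' hm'
      exact Nat.le_findGreatest hm'.1 hm'
  have hlen : ∀ z, (u z).2 = true → z.length ≤ m := by
    intro z hz
    have hzh : z.length ≤ h := by
      by_contra hcon
      have := hh z (by omega)
      rw [this] at hz
      exact absurd hz (by decide)
    exact hmax z.length ⟨hzh, z, rfl, hz⟩
  refine ⟨x, by omega, ?_⟩
  intro z
  constructor
  · intro hz
    induction z with
    | nil => exact List.nil_suffix
    | cons a z ih =>
      have hz' := ((hu.2.2 z).2.1 a hz).1
      obtain ⟨t, ht⟩ := ih hz'
      rcases List.eq_nil_or_concat t with rfl | ⟨t', b, rfl⟩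
      · exfalso
        have := hlen _ hz
        simp only [List.nil_append] at ht
        rw [← ht] at hx
        simp only [List.length_cons] at this
        omega
      · have hb : b :: z <:+ x := ⟨t', by rw [← ht]; simp⟩
        have hb2 := hu.closed2 hb hx2
        have := (hu.2.2 z).2.2.1 a b hz hb2
        rw [this]; exact hb
  · intro hz
    exact hu.closed2 hz hx2

theorem lab_surj {u : List (Ltr n) → EL} (hu : Valid u) {h : ℕ} (hh : HB u h) :
    ∃ w, lab w = u ∧ w.length ≤ bnd n h := by
  classical
  obtain ⟨x, hx, hxu⟩ := hu.exists_end hh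
  have hxT : (u x).1 = true := hu.sub2 ((hxu x).2 List.suffix_rfl)
  have hxR := hu.red x hxT
  set Z := (words n h).filter (fun z => (u z).1) with hZ
  have hZr : ∀ z ∈ Z, IsRed z := by
    intro z hz
    rw [hZ, List.mem_filter] at hz
    exact hu.red z hz.2
  obtain ⟨t1, t2⟩ := tour_spec Z hZr
  obtain ⟨g1, g2⟩ := goTo hxR
  refine ⟨tour Z ++ x.reverse, ?_, ?_⟩
  · funext z
    have hend : endW [] (tour Z ++ x.reverse) = x := by rw [endW_append, t1, g1]
    have h1 : (lab (tour Z ++ x.reverse) z).1 = true ↔ (u z).1 = true := by
      rw [lab_fst, mem_trW_append, t1, t2, g2]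
      constructor
      · rintro ((rfl | ⟨y, hy, hzy⟩) | h)
        · exact hu.1
        · rw [hZ, List.mem_filter] at hy
          exact hu.closed hzy hy.2
        · exact hu.closed h hxT
      · intro hz
        left; right
        refine ⟨z, ?_, List.suffix_rfl⟩
        rw [hZ, List.mem_filter]
        refine ⟨(mem_words h z).2 ?_, hz⟩
        by_contra hcon
        have := hh z (by omega)
        rw [this] at hz
        exact absurd hz (by decide)
    have h2 : (lab (tour Z ++ x.reverse) z).2 = true ↔ (u z).2 = true := by
      rw [lab_snd, hend, hxu]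
    exact Prod.ext (Bool.eq_iff_iff.2 h1) (Bool.eq_iff_iff.2 h2)
  · rw [List.length_append, List.length_reverse, bnd]
    have := tour_length Z h (fun z hz => by
      rw [hZ, List.mem_filter] at hz
      exact (mem_words h z).1 hz.1)
    have h3 : Z.length ≤ (words n h).length := by rw [hZ]; exact List.length_filter_le _ _
    have h4 : Z.length * (2*h) ≤ (words n h).length * (2*h) := Nat.mul_le_mul_right _ h3
    omega

end Pool.Agent.RecFIM
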