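import Mathlib
import Pool.Agent.Lib.MP_5c1719_al.Words

set_option autoImplicit false

namespace Pool.Agent.RecFIM

variable {n : ℕ}

abbrev Aut (n : ℕ) := List (Tr n) × List ℕ

/-- letters read by a path -/
def wd (l : List (Tr n)) : List (Ltr n) := l.filterMap (fun t => t.2.1)

/-- accepting path, in the form used by the statement -/
def FP (A : Aut n) (l : List (Tr n)) : Prop :=
  (∀ t ∈ l, t ∈ A.1) ∧
  (∀ i : ℕ, i + 1 < l.length → (l[i]?).map (fun t => t.2.2) = (l[i+1]?).map (fun t => t.1)) ∧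
  ((l.head?).map (fun t => t.1)).getD 0 = 0 ∧
  ((l.getLast?).map (fun t => t.2.2)).getD 0 ∈ A.2

/-- final state of a path -/
def fst' (p : ℕ) : List (Tr n) → ℕ
  | [] => p
  | t :: l => fst' t.2.2 l

theorem lastc_snd (x : List (Ltr n)) (p : ℕ) (l : List (Tr n)) : (lastc (x, p) l).2 = fst' p l := by
  induction l generalizing x p with
  | nil => rfl
  | cons t l ih =>
    show (lastc (mvo t.2.1 x, t.2.2) l).2 = _
    rw [ih]; rfl

theorem fst'_eq (p : ℕ) (l : List (Tr n)) : ((l.getLast?).map (fun t => t.2.2)).getD p = fst' p l := by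
  induction l generalizing p with
  | nil => rfl
  | cons t l ih =>
    cases l with
    | nil => rfl
    | cons t' l' =>
      rw [List.getLast?_cons_cons]
      have := ih t.2.2
      show _ = fst' t.2.2 (t' :: l')
      rw [← this]
      rw [List.getLast?_eq_some_getLast (by simp)]
      rfl

theorem PthOK_iff (Δ : List (Tr n)) (p : ℕ) (l : List (Tr n)) :
    PthOK Δ p l ↔ (∀ t ∈ l, t ∈ Δ) ∧
      (∀ i : ℕ, i + 1 < l.length → (l[i]?).map (fun t => t.2.2) = (l[i+1]?).map (fun t => t.1)) ∧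
      ((l.head?).map (fun t => t.1)).getD p = p := by
  induction l generalizing p with
  | nil => simp [PthOK]
  | cons t l ih =>
    rw [PthOK, ih]
    constructor
    · rintro ⟨h1, h2, h3, h4, h5⟩
      refine ⟨?_, ?_, ?_⟩
      · intro t' ht'
        rw [List.mem_cons] at ht'
        rcases ht' with rfl | ht'
        · exact h1
        · exact h3 t' ht'
      · intro i hi
        cases i with
        | zero =>
          cases l with
          | nil => simp at hi
          | cons t' l' =>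
            simp at h5 ⊢
            exact h5.symm
        | succ i =>
          have := h4 i (by simpa using hi)
          simpa using this
      · simpa using h2
    · rintro ⟨h1, h2, h3⟩
      refine ⟨h1 t (by simp), by simpa using h3, fun t' ht' => h1 t' (by simp [ht']), ?_, ?_⟩
      · intro i hi
        have := h2 (i+1) (by simpa using hi)
        simpa using this
      · cases l with
        | nil => rfl
        | cons t' l' =>
          have := h2 0 (by simp)
          simp at this ⊢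
          exact this.symm

theorem FP_iff (A : Aut n) (x : List (Ltr n)) (l : List (Tr n)) :
    FP A l ↔ PthOK A.1 0 l ∧ (lastc (x, 0) l).2 ∈ A.2 := by
  rw [PthOK_iff, lastc_snd, ← fst'_eq, FP]
  tauto

theorem lastc_fst (x : List (Ltr n)) (p : ℕ) (l : List (Tr n)) :
    (lastc (x, p) l).1 = endW x (wd l) := by
  induction l generalizing x p with
  | nil => rfl
  | cons t l ih =>
    obtain ⟨q, o, q'⟩ := t
    show (lastc (mvo o x, q') l).1 = _
    rw [ih]
    cases o with
    | none => rfl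
    | some a => rfl

theorem confs_fst (x : List (Ltr n)) (p : ℕ) (l : List (Tr n)) (z : List (Ltr n)) :
    (∃ d ∈ confs (x, p) l, d.1 = z) ↔ z ∈ trW x (wd l) := by
  induction l generalizing x p with
  | nil => simp [confs, wd, trW, eq_comm]
  | cons t l ih =>
    obtain ⟨q, o, q'⟩ := t
    have := ih (mvo o x) q'
    simp only [confs, List.mem_cons, exists_eq_or_imp]
    show x = z ∨ (∃ d ∈ confs (mvo o x, q') l, d.1 = z) ↔ _
    rw [this]
    cases o with
    | none =>
      show x = z ∨ z ∈ trW x (wd l) ↔ z ∈ trW x (wd l)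
      constructor
      · rintro (rfl | h)
        · exact start_mem _ _
        · exact h
      · exact Or.inr
    | some a =>
      show x = z ∨ z ∈ trW (move a x) (wd l) ↔ z ∈ trW x (a :: wd l)
      rw [trW, List.mem_cons]
      constructor
      · rintro (rfl | h)
        · exact Or.inl rfl
        · exact Or.inr h
      · rintro (rfl | h)
        · exact Or.inl rfl
        · exact Or.inr h

/-- residual -/
def RS (A : Aut n) (u : List (Ltr n)) : Set (List (Ltr n)) :=
  {w | ∃ v, (∃ l, FP A l ∧ wd l = v) ∧ ev (u ++ w) = ev v ∧ PS (u ++ w) = PS v}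

/-- same Munn tree, seen from the node `x` -/
def SameFrom (x : List (Ltr n)) (w v : List (Ltr n)) : Prop :=
  endW x w = endW x v ∧ ∀ z, z ∈ trW x w ↔ z ∈ trW x v

theorem same_iff {x : List (Ltr n)} (hx : IsRed x) (w v : List (Ltr n)) :
    (ev w = ev v ∧ PS w = PS v) ↔ SameFrom x w v := by
  rw [ev_eq_iff hx, PS_eq_iff hx]; rfl

theorem RS_iff {x : List (Ltr n)} (hx : IsRed x) (A : Aut n) (u w : List (Ltr n)) :
    w ∈ RS A u ↔ ∃ l, FP A l ∧ SameFrom x (u ++ w) (wd l) := by
  constructor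
  · rintro ⟨v, ⟨l, hl, rfl⟩, h⟩
    exact ⟨l, hl, (same_iff hx _ _).1 h⟩
  · rintro ⟨l, hl, h⟩
    exact ⟨_, ⟨l, hl, rfl⟩, (same_iff hx _ _).2 h⟩

theorem start_red (u : List (Ltr n)) : IsRed (endW [] (winv u)) := IsRed.endW (x := []) trivial _

theorem endW_back (u : List (Ltr n)) : endW (endW [] (winv u)) u = [] := by
  have := endW_winv (x := ([] : List (Ltr n))) trivial (winv u)
  rwa [winv_winv] at this

theorem trW_back (u z : List (Ltr n)) : z ∈ trW (endW [] (winv u)) u ↔ z ∈ trW [] (winv u) := by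
  have := trW_winv (x := ([] : List (Ltr n))) trivial (winv u) z
  rwa [winv_winv] at this

theorem mem_T (u w z : List (Ltr n)) : z ∈ tset (lab (winv u)) ∪ tset (lab w) ↔
    z ∈ trW (endW [] (winv u)) (u ++ w) := by
  rw [mem_trW_append, endW_back, trW_back, tset_lab, tset_lab]; rfl

theorem Acc_iff (A : Aut n) (u w : List (Ltr n)) (N : ℕ) :
    Acc A.1 A.2 (endW [] (winv u)) (tset (lab (winv u)) ∪ tset (lab w)) (endW [] w) N ↔
      ∃ l, FP A l ∧ SameFrom (endW [] (winv u)) (u ++ w) (wd l) ∧ l.length ≤ N := by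
  unfold Acc
  constructor
  · rintro ⟨l, h1, h2, h3, h4, h5⟩
    refine ⟨l, (FP_iff A _ l).2 ⟨h1, h2⟩, ⟨?_, ?_⟩, h5⟩
    · rw [endW_append, endW_back, ← h3, lastc_fst]
    · intro z
      rw [← mem_T, h4, confs_fst]
  · rintro ⟨l, h1, ⟨h3, h4⟩, h5⟩
    obtain ⟨g1, g2⟩ := (FP_iff A (endW [] (winv u)) l).1 h1
    refine ⟨l, g1, g2, ?_, ?_, h5⟩
    · rw [lastc_fst, ← h3, endW_append, endW_back]
    · intro z
      rw [mem_T, h4, confs_fst]

theorem T_finite (u w : List (Ltr n)) : (tset (lab (winv u)) ∪ tset (lab w)).Finite := by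
  refine Set.Finite.subset (List.finite_toSet (trW (endW [] (winv u)) (u ++ w))) ?_
  intro z hz
  exact (mem_T u w z).1 hz

theorem trW_len (x w : List (Ltr n)) : (trW x w).length = w.length + 1 := by
  induction w generalizing x with
  | nil => rfl
  | cons a w ih => simp [trW, ih]

theorem T_card (u w : List (Ltr n)) :
    (tset (lab (winv u)) ∪ tset (lab w)).ncard ≤ (u ++ w).length + 1 := by
  classical
  have h1 : tset (lab (winv u)) ∪ tset (lab w) = ((trW (endW [] (winv u)) (u ++ w)).toFinset : Set (List (Ltr n))) := by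
    ext z; rw [mem_T]; simp
  rw [h1, Set.ncard_coe_finset]
  refine (List.toFinset_card_le _).trans ?_
  rw [trW_len]

/-- bound for path lengths -/
def bP (k m : ℕ) : ℕ := ((m + 1) * (k + 1) + 1) * ((m + 1) * (k + 1))

theorem RS_iff_Wf {k : ℕ} {A : Aut n} (hk : ∀ t ∈ A.1, t.1 ≤ k ∧ t.2.2 ≤ k) (u w : List (Ltr n)) :
    w ∈ RS A u ↔ Wf k A.1 A.2 (lab (winv u)) (lab w) := by
  rw [RS_iff (start_red u)]
  constructor
  · rintro ⟨l, h1, h2⟩
    exact Wf_of_Acc hk (lab_valid _) (lab_valid _) (fun x' => lab_isEnd _ x')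
      ((lab_isEnd w _).2 rfl) ((Acc_iff A u w l.length).2 ⟨l, h1, h2, le_rfl⟩)
  · intro h
    have := Acc_of_Wf hk (lab_valid _) (lab_valid _) ((lab_isEnd _ _).2 rfl) (fun y' => lab_isEnd w y')
      ((lab_fst _ _).2 (endW_mem _ _)) (T_finite u w) (M := ((u ++ w).length + 1) * (k+1))
      (Nat.mul_le_mul_right _ (T_card u w)) h
    obtain ⟨l, h1, h2, _⟩ := (Acc_iff A u w _).1 this
    exact ⟨l, h1, h2⟩

theorem RS_short {k : ℕ} {A : Aut n} (hk : ∀ t ∈ A.1, t.1 ≤ k ∧ t.2.2 ≤ k) (u w : List (Ltr n)) :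
    w ∈ RS A u ↔ ∃ l, l.length ≤ bP k (u ++ w).length ∧ FP A l ∧ SameFrom [] (u ++ w) (wd l) := by
  constructor
  · intro hw
    have h := (RS_iff_Wf hk u w).1 hw
    have := Acc_of_Wf hk (lab_valid _) (lab_valid _) ((lab_isEnd _ _).2 rfl) (fun y' => lab_isEnd w y')
      ((lab_fst _ _).2 (endW_mem _ _)) (T_finite u w) (M := ((u ++ w).length + 1) * (k+1))
      (Nat.mul_le_mul_right _ (T_card u w)) h
    obtain ⟨l, h1, h2, h3⟩ := (Acc_iff A u w _).1 this
    refine ⟨l, h3, h1, ?_⟩
    rw [← same_iff (x := []) trivial, same_iff (start_red u)]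
    exact h2
  · rintro ⟨l, _, h1, h2⟩
    exact (RS_iff (x := []) trivial A u w).2 ⟨l, h1, h2⟩

theorem RS_eq_iff {k : ℕ} {A : Aut n} (hk : ∀ t ∈ A.1, t.1 ≤ k ∧ t.2.2 ≤ k) (u u' : List (Ltr n)) :
    RS A u = RS A u' ↔ EE k A.1 A.2 (lab (winv u)) (lab (winv u')) := by
  constructor
  · rintro h v ⟨hv, hhv⟩ hval
    obtain ⟨w, rfl, _⟩ := lab_surj hval hhv
    rw [← RS_iff_Wf hk, ← RS_iff_Wf hk, h]
  · intro h
    ext w
    rw [RS_iff_Wf hk, RS_iff_Wf hk]
    exact h (lab w) ⟨_, lab_HB w⟩ (lab_valid w)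

/-- separation by short words -/
theorem RS_eq_of_short {k : ℕ} {A : Aut n} (hk : ∀ t ∈ A.1, t.1 ≤ k ∧ t.2.2 ≤ k) {u u' : List (Ltr n)}
    {h : ℕ} (hu : u.length + 1 ≤ h) (hu' : u'.length + 1 ≤ h)
    (H : ∀ w, w.length ≤ bnd n (h + bQ3' n k) → (w ∈ RS A u ↔ w ∈ RS A u')) : RS A u = RS A u' := by
  rw [RS_eq_iff hk]
  refine EE_short k A.1 A.2 (h := h) ((lab_HB _).mono (by simpa using hu)) ((lab_HB _).mono (by simpa using hu')) ?_
  intro v hv hval
  rw [card_Q3'] at hv
  obtain ⟨w, rfl, hw⟩ := lab_surj hval hv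
  rw [← RS_iff_Wf hk, ← RS_iff_Wf hk]
  exact H w hw

/-- if there are finitely many residuals, each residual has a short representative -/
theorem short_reps {k : ℕ} {A : Aut n} (hk : ∀ t ∈ A.1, t.1 ≤ k ∧ t.2.2 ≤ k)
    (hfin : (Set.range (RS A)).Finite) (u : List (Ltr n)) :
    ∃ u', u'.length ≤ bnd n (bQ5 n k) ∧ RS A u = RS A u' := by
  classical
  have H : ∃ h, ∀ u, FS u → Valid u → ∃ u', HB u' h ∧ Valid u' ∧ EE k A.1 A.2 u u' := by
    -- choose representatives
    choose f hf using fun (R : Set.range (RS A)) => R.2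
    have hfin' : Finite (Set.range (RS A)) := hfin
    have := Fintype.ofFinite (Set.range (RS A))
    refine ⟨Finset.univ.sup (fun R => (f R).length + 1), ?_⟩
    rintro v ⟨hv, hhv⟩ hval
    obtain ⟨w, rfl, _⟩ := lab_surj hval hhv
    refine ⟨lab (winv (f ⟨RS A (winv w), ⟨_, rfl⟩⟩)), ?_, lab_valid _, ?_⟩
    · refine (lab_HB _).mono ?_
      rw [winv_length]
      exact Finset.le_sup (f := fun R => (f R).length + 1) (Finset.mem_univ _)
    · have h1 := hf ⟨RS A (winv w), ⟨_, rfl⟩⟩
      have h2 := (RS_eq_iff hk (winv w) (f ⟨RS A (winv w), ⟨_, rfl⟩⟩)).1 h1.symm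
      rwa [winv_winv] at h2
  obtain ⟨v, hv, hval, hE⟩ := small_reps k A.1 A.2 H (lab (winv u)) ⟨_, lab_HB _⟩ (lab_valid _)
  rw [card_Q5] at hv
  obtain ⟨w, rfl, hw⟩ := lab_surj hval hv
  refine ⟨winv w, by simpa using hw, ?_⟩
  rw [RS_eq_iff hk, winv_winv]
  exact hE

theorem RS_append (A : Aut n) (u : List (Ltr n)) (a w : List (Ltr n)) :
    w ∈ RS A (u ++ a) ↔ a ++ w ∈ RS A u := by
  unfold RS
  simp only [Set.mem_ofPred_eq, List.append_assoc]

theorem RS_congr (A : Aut n) {u u' : List (Ltr n)} (h : RS A u = RS A u') (a : List (Ltr n)) :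
    RS A (u ++ a) = RS A (u' ++ a) := by
  ext w
  rw [RS_append, RS_append, h]

/-- if each word of length `≤ N+1` is equivalent to a word of length `≤ N`, there are finitely many residuals -/
theorem finite_of_short (A : Aut n) (N : ℕ)
    (H : ∀ u : List (Ltr n), u.length ≤ N + 1 → ∃ u' : List (Ltr n), u'.length ≤ N ∧ RS A u = RS A u') :
    (Set.range (RS A)).Finite := by
  have key : ∀ u : List (Ltr n), ∃ u' : List (Ltr n), u'.length ≤ N ∧ RS A u = RS A u' := by
    intro u
    induction u using List.reverseRecOn with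
    | nil => exact ⟨[], Nat.zero_le _, rfl⟩
    | append_singleton u a ih =>
      obtain ⟨u', h1, h2⟩ := ih
      obtain ⟨u'', h3, h4⟩ := H (u' ++ [a]) (by simp; omega)
      exact ⟨u'', h3, (RS_congr A h2 [a]).trans h4⟩
  have hf : {u' : List (Ltr n) | u'.length ≤ N}.Finite := by
    refine Set.Finite.subset (List.finite_toSet (words n N)) ?_
    intro u hu
    exact (mem_words N u).2 hu
  refine (hf.image (RS A)).subset ?_
  rintro _ ⟨u, rfl⟩
  obtain ⟨u', h1, h2⟩ := key u
  exact ⟨u', h1, h2.symm⟩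

/-- the decision criterion -/
theorem finite_iff {k : ℕ} {A : Aut n} (hk : ∀ t ∈ A.1, t.1 ≤ k ∧ t.2.2 ≤ k) :
    (Set.range (RS A)).Finite ↔
      ∀ u ∈ words n (bnd n (bQ5 n k) + 1), ∃ u' ∈ words n (bnd n (bQ5 n k)),
        ∀ w ∈ words n (bnd n ((bnd n (bQ5 n k) + 2) + bQ3' n k)), (w ∈ RS A u ↔ w ∈ RS A u') := by
  constructor
  · intro hfin u hu
    obtain ⟨u', h1, h2⟩ := short_reps hk hfin u
    refine ⟨u', (mem_words _ _).2 h1, fun w _ => ?_⟩
    rw [h2]
  · intro H
    refine finite_of_short A (bnd n (bQ5 n k)) ?_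
    intro u hu
    obtain ⟨u', h1, h2⟩ := H u ((mem_words _ _).2 hu)
    rw [mem_words] at h1
    refine ⟨u', h1, RS_eq_of_short hk (h := bnd n (bQ5 n k) + 2) (by omega) (by omega) ?_⟩
    intro w hw
    exact h2 w ((mem_words _ _).2 hw)

end Pool.Agent.RecFIM
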