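import Mathlib
import Pool.Agent.Lib.MP_5c1719_al.Residual

set_option autoImplicit false

namespace Pool.Agent.RecFIM

variable {n : ℕ}

/-! list enumeration -/

def lst {α : Type} (A : List α) : ℕ → List (List α)
  | 0 => [[]]
  | N+1 => [] :: (lst A N).flatMap (fun w => A.map (fun a => a :: w))

theorem mem_lst {α : Type} (A : List α) (N : ℕ) (w : List α) :
    w ∈ lst A N ↔ w.length ≤ N ∧ ∀ a ∈ w, a ∈ A := by
  induction N generalizing w with
  | zero =>
    simp only [lst, List.mem_singleton, Nat.le_zero, List.length_eq_zero_iff]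
    constructor
    · rintro rfl; simp
    · rintro ⟨h, _⟩; exact h
  | succ N ih =>
    simp only [lst, List.mem_cons, List.mem_flatMap, List.mem_map]
    cases w with
    | nil => simp
    | cons a w =>
      simp only [reduceCtorEq, false_or, List.cons.injEq, List.length_cons]
      constructor
      · rintro ⟨w', hw', a', ha', rfl, rfl⟩
        have := (ih w').1 hw'
        refine ⟨by omega, ?_⟩
        intro b hb
        rw [List.mem_cons] at hb
        rcases hb with rfl | hb
        · exact ha'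
        · exact this.2 b hb
      · rintro ⟨h1, h2⟩
        exact ⟨w, (ih w).2 ⟨by omega, fun b hb => h2 b (by simp [hb])⟩, a, h2 a (by simp), rfl, rfl⟩

theorem words_eq (N : ℕ) : words n N = lst (letters n) N := by
  induction N with
  | zero => rfl
  | succ N ih => simp only [words, lst, ih]

theorem primrec_lst {α : Type} [Primcodable α] : Primrec₂ (fun (A : List α) (N : ℕ) => lst A N) := by
  have h : Primrec₂ (fun (A : List α) (p : ℕ × List (List α)) =>
      ([] : List α) :: p.2.flatMap (fun w => A.map (fun a => a :: w))) := by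
    refine Primrec.list_cons.comp (Primrec.const []) ?_
    refine Primrec.list_flatMap (Primrec.snd.comp Primrec.snd) ?_
    refine Primrec.list_map (Primrec.fst.comp Primrec.fst) ?_
    exact Primrec.list_cons.comp Primrec.snd (Primrec.snd.comp Primrec.fst)
  refine (Primrec.nat_rec (Primrec.const [[]]) h).of_eq ?_
  rintro A N
  induction N with
  | zero => rfl
  | succ N ih => simp only [lst, ← ih]

theorem primrec_words : Primrec (fun N : ℕ => words n N) :=
  (primrec_lst.comp (Primrec.const (letters n)) Primrec.id).of_eq (fun N => (words_eq N).symm)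

/-! bounds -/

theorem primrec_pow : Primrec₂ (fun a b : ℕ => a ^ b) := by
  have h : Primrec₂ (fun (a : ℕ) (p : ℕ × ℕ) => p.2 * a) :=
    Primrec.nat_mul.comp (Primrec.snd.comp Primrec.snd) Primrec.fst
  refine (Primrec.nat_rec (Primrec.const 1) h).of_eq ?_
  intro a b
  induction b with
  | zero => rfl
  | succ b ih => 
    rw [pow_succ, ← ih]

theorem primrec_bnd : Primrec (fun h : ℕ => bnd n h) := by
  unfold bnd
  exact Primrec.nat_add.comp (Primrec.nat_mul.comp (Primrec.list_length.comp primrec_words)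
    (Primrec.nat_mul.comp (Primrec.const 2) Primrec.id)) Primrec.id

theorem primrec_bLab : Primrec (fun k : ℕ => bLab k) := by
  unfold bLab
  have h : Primrec (fun k : ℕ => 2 ^ (k+1)) := primrec_pow.comp (Primrec.const 2) Primrec.succ
  have h2 : Primrec (fun k : ℕ => 2 ^ (k+1) * 2 ^ (k+1)) := Primrec.nat_mul.comp h h
  exact Primrec.nat_mul.comp (Primrec.nat_mul.comp (Primrec.const (4*4)) h2) h2

theorem primrec_bQ0 : Primrec (fun k : ℕ => bQ0 n k) := by
  unfold bQ0
  exact Primrec.nat_mul.comp (Primrec.nat_mul.comp primrec_bLab (primrec_pow.comp primrec_bLab (Primrec.const (n+n))))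
    (Primrec.const (2^11))

theorem primrec_two_pow {f : ℕ → ℕ} (hf : Primrec f) : Primrec (fun k : ℕ => 2 ^ f k) :=
  primrec_pow.comp (Primrec.const 2) hf

theorem primrec_bQ3' : Primrec (fun k : ℕ => bQ3' n k) := by
  unfold bQ3'
  have h := primrec_two_pow (primrec_two_pow (primrec_bQ0 (n := n)))
  exact Primrec.nat_mul.comp h (Primrec.nat_mul.comp h (Primrec.const _))

theorem primrec_bQ4' : Primrec (fun k : ℕ => bQ4' n k) := by
  unfold bQ4'
  exact Primrec.nat_mul.comp (primrec_two_pow primrec_bQ3') (Primrec.const _)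

theorem primrec_bQ5' : Primrec (fun k : ℕ => bQ5' n k) := by
  unfold bQ5'
  exact Primrec.nat_mul.comp (primrec_two_pow primrec_bQ4') (Primrec.const _)

theorem primrec_bQ5 : Primrec (fun k : ℕ => bQ5 n k) := primrec_two_pow primrec_bQ5'

/-! reading words -/

theorem primrec_move : Primrec₂ (fun (a : Ltr n) (w : List (Ltr n)) => move a w) := by
  have hl : Primrec (fun a : Ltr n => linv a) := Primrec.dom_finite _
  have h : Primrec₂ (fun (p : Ltr n × List (Ltr n)) (q : Ltr n × List (Ltr n)) =>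
      if q.1 = linv p.1 then q.2 else p.1 :: q.1 :: q.2) := by
    refine Primrec.ite (Primrec.eq.comp (Primrec.fst.comp Primrec.snd) (hl.comp (Primrec.fst.comp Primrec.fst))) 
      (Primrec.snd.comp Primrec.snd) ?_
    exact Primrec.list_cons.comp (Primrec.fst.comp Primrec.fst)
      (Primrec.list_cons.comp (Primrec.fst.comp Primrec.snd) (Primrec.snd.comp Primrec.snd))
  refine (Primrec.list_casesOn (f := fun p : Ltr n × List (Ltr n) => p.2) (g := fun p => [p.1]) Primrec.snd
    (Primrec.list_cons.comp Primrec.fst (Primrec.const [])) h).of_eq ?_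
  rintro ⟨a, w⟩
  cases w <;> rfl

/-- state: current node and list of visited nodes -/
def trL (w : List (Ltr n)) : List (Ltr n) × List (List (Ltr n)) :=
  w.foldl (fun s a => (move a s.1, move a s.1 :: s.2)) ([], [[]])

theorem trL_aux (w : List (Ltr n)) (x : List (Ltr n)) (V : List (List (Ltr n))) (hx : x ∈ V) :
    (w.foldl (fun s a => (move a s.1, move a s.1 :: s.2)) (x, V)).1 = endW x w ∧
    ∀ z, z ∈ (w.foldl (fun s a => (move a s.1, move a s.1 :: s.2)) (x, V)).2 ↔ z ∈ V ∨ z ∈ trW x w := by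
  induction w generalizing x V with
  | nil =>
    refine ⟨rfl, fun z => ?_⟩
    simp only [List.foldl_nil, trW, List.mem_singleton]
    constructor
    · exact Or.inl
    · rintro (h | rfl)
      · exact h
      · exact hx
  | cons a w ih =>
    obtain ⟨h1, h2⟩ := ih (move a x) (move a x :: V) (by simp)
    refine ⟨h1, fun z => ?_⟩
    rw [List.foldl_cons, h2]
    simp only [trW, List.mem_cons]
    constructor
    · rintro ((rfl | h) | h)
      · exact Or.inr (Or.inr (start_mem _ _))
      · exact Or.inl h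
      · exact Or.inr (Or.inr h)
    · rintro (h | rfl | h)
      · exact Or.inl (Or.inr h)
      · exact Or.inl (Or.inr hx)
      · exact Or.inr h

theorem trL_fst (w : List (Ltr n)) : (trL w).1 = endW [] w := (trL_aux w [] [[]] (by simp)).1

theorem trL_snd (w z : List (Ltr n)) : z ∈ (trL w).2 ↔ z ∈ trW [] w := by
  rw [trL, (trL_aux w [] [[]] (by simp)).2]
  simp only [List.mem_singleton]
  constructor
  · rintro (rfl | h)
    · exact start_mem _ _
    · exact h
  · exact Or.inr

theorem primrec_trL : Primrec (fun w : List (Ltr n) => trL w) := by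
  have h : Primrec₂ (fun (_ : List (Ltr n)) (p : (List (Ltr n) × List (List (Ltr n))) × Ltr n) =>
      (move p.2 p.1.1, move p.2 p.1.1 :: p.1.2)) := by
    have hm : Primrec (fun q : List (Ltr n) × ((List (Ltr n) × List (List (Ltr n))) × Ltr n) => move q.2.2 q.2.1.1) :=
      primrec_move.comp (Primrec.snd.comp Primrec.snd) (Primrec.fst.comp (Primrec.fst.comp Primrec.snd))
    exact Primrec.pair hm (Primrec.list_cons.comp hm (Primrec.snd.comp (Primrec.fst.comp Primrec.snd)))
  exact Primrec.list_foldl Primrec.id (Primrec.const ([], [[]])) h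

theorem same_iff_trL (w v : List (Ltr n)) : SameFrom [] w v ↔
    ((trL w).1 = (trL v).1 ∧ (∀ z ∈ (trL w).2, ∃ z' ∈ (trL v).2, z' = z) ∧
      (∀ z ∈ (trL v).2, ∃ z' ∈ (trL w).2, z' = z)) := by
  unfold SameFrom
  simp only [trL_fst, trL_snd, exists_eq_right]
  constructor
  · rintro ⟨h1, h2⟩
    exact ⟨h1, fun z hz => (h2 z).1 hz, fun z hz => (h2 z).2 hz⟩
  · rintro ⟨h1, h2, h3⟩
    exact ⟨h1, fun z => ⟨h2 z, h3 z⟩⟩

theorem primrec_mem : PrimrecRel (fun (z : List (Ltr n)) (l : List (List (Ltr n))) => ∃ z' ∈ l, z' = z) := by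
  have h : PrimrecRel (fun (z' z : List (Ltr n)) => z' = z) := Primrec.eq
  exact h.exists_mem_list.comp Primrec.snd Primrec.fst

theorem primrec_sub : PrimrecRel (fun (l l' : List (List (Ltr n))) => ∀ z ∈ l, ∃ z' ∈ l', z' = z) :=
  primrec_mem.forall_mem_list

theorem primrec_same : PrimrecRel (fun (w v : List (Ltr n)) => SameFrom [] w v) := by
  have h1 : Primrec (fun p : List (Ltr n) × List (Ltr n) => trL p.1) := primrec_trL.comp Primrec.fst
  have h2 : Primrec (fun p : List (Ltr n) × List (Ltr n) => trL p.2) := primrec_trL.comp Primrec.snd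
  have a1 : PrimrecPred (fun p : List (Ltr n) × List (Ltr n) => (trL p.1).1 = (trL p.2).1) :=
    Primrec.eq.comp (Primrec.fst.comp h1) (Primrec.fst.comp h2)
  have a2 : PrimrecPred (fun p : List (Ltr n) × List (Ltr n) => ∀ z ∈ (trL p.1).2, ∃ z' ∈ (trL p.2).2, z' = z) :=
    primrec_sub.comp (Primrec.snd.comp h1) (Primrec.snd.comp h2)
  have a3 : PrimrecPred (fun p : List (Ltr n) × List (Ltr n) => ∀ z ∈ (trL p.2).2, ∃ z' ∈ (trL p.1).2, z' = z) :=
    primrec_sub.comp (Primrec.snd.comp h2) (Primrec.snd.comp h1)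
  exact (a1.and (a2.and a3)).of_eq (fun p => (same_iff_trL p.1 p.2).symm)

/-! path checking -/

def chk (l : List (Tr n)) : Option ℕ :=
  l.foldl (fun o t => o.bind (fun q => if t.1 = q then some t.2.2 else none)) (some 0)

theorem chk_aux (Δ : List (Tr n)) (l : List (Tr n)) (hl : ∀ t ∈ l, t ∈ Δ) (p q : ℕ) :
    l.foldl (fun o t => o.bind (fun q => if t.1 = q then some t.2.2 else none)) (some p) = some q ↔
      PthOK Δ p l ∧ fst' p l = q := by
  induction l generalizing p with
  | nil => simp [PthOK, fst']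
  | cons t l ih =>
    have hl' : ∀ t ∈ l, t ∈ Δ := fun t ht => hl t (by simp [ht])
    rw [List.foldl_cons]
    by_cases hp : t.1 = p
    · simp only [Option.bind_some, hp, if_true]
      rw [ih hl']
      simp only [PthOK, fst']
      constructor
      · rintro ⟨h1, h2⟩; exact ⟨⟨hl t (by simp), hp, h1⟩, h2⟩
      · rintro ⟨⟨_, _, h1⟩, h2⟩; exact ⟨h1, h2⟩
    · simp only [Option.bind_some, hp, if_false]
      constructor
      · intro h
        exfalso
        have : ∀ l : List (Tr n), l.foldl (fun o t => o.bind (fun q => if t.1 = q then some t.2.2 else none)) (none : Option ℕ) = none := by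
          intro l
          induction l with
          | nil => rfl
          | cons t l ih => simpa using ih
        rw [this] at h
        simp at h
      · rintro ⟨⟨_, h1, _⟩, _⟩; exact absurd h1 hp

theorem FP_chk (A : Aut n) (l : List (Tr n)) (hl : ∀ t ∈ l, t ∈ A.1) :
    FP A l ↔ ∃ q ∈ A.2, chk l = some q := by
  rw [FP_iff A [] l, lastc_snd]
  constructor
  · rintro ⟨h1, h2⟩
    exact ⟨_, h2, (chk_aux A.1 l hl 0 _).2 ⟨h1, rfl⟩⟩
  · rintro ⟨q, hq, h⟩
    obtain ⟨h1, h2⟩ := (chk_aux A.1 l hl 0 q).1 h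
    rw [h2]; exact ⟨h1, hq⟩

theorem primrec_chk : Primrec (fun l : List (Tr n) => chk l) := by
  have h : Primrec₂ (fun (_ : List (Tr n)) (p : Option ℕ × Tr n) =>
      p.1.bind (fun q => if p.2.1 = q then some p.2.2.2 else none)) := by
    refine Primrec.option_bind (Primrec.fst.comp Primrec.snd) ?_
    refine Primrec.ite (Primrec.eq.comp (Primrec.fst.comp (Primrec.snd.comp (Primrec.snd.comp Primrec.fst))) Primrec.snd) ?_ (Primrec.const none)
    exact Primrec.option_some.comp (Primrec.snd.comp (Primrec.snd.comp (Primrec.snd.comp (Primrec.snd.comp Primrec.fst))))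
  exact Primrec.list_foldl Primrec.id (Primrec.const (some 0)) h

/-- bound for the states of an automaton -/
def kk (A : Aut n) : ℕ := A.1.foldl (fun s t => s + t.1 + t.2.2) 0

theorem kk_aux (l : List (Tr n)) (s : ℕ) : s ≤ l.foldl (fun s t => s + t.1 + t.2.2) s ∧
    ∀ t ∈ l, t.1 ≤ l.foldl (fun s t => s + t.1 + t.2.2) s ∧ t.2.2 ≤ l.foldl (fun s t => s + t.1 + t.2.2) s := by
  induction l generalizing s with
  | nil => simp
  | cons t l ih =>
    obtain ⟨h1, h2⟩ := ih (s + t.1 + t.2.2)
    rw [List.foldl_cons]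
    refine ⟨by omega, ?_⟩
    intro t' ht'
    rw [List.mem_cons] at ht'
    rcases ht' with rfl | ht'
    · exact ⟨by omega, by omega⟩
    · exact h2 t' ht'

theorem kk_spec (A : Aut n) : ∀ t ∈ A.1, t.1 ≤ kk A ∧ t.2.2 ≤ kk A := (kk_aux A.1 0).2

theorem primrec_kk : Primrec (fun A : Aut n => kk A) := by
  have h : Primrec₂ (fun (_ : Aut n) (p : ℕ × Tr n) => p.1 + p.2.1 + p.2.2.2) := by
    refine Primrec.nat_add.comp (Primrec.nat_add.comp (Primrec.fst.comp Primrec.snd) (Primrec.fst.comp (Primrec.snd.comp Primrec.snd))) ?_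
    exact Primrec.snd.comp (Primrec.snd.comp (Primrec.snd.comp Primrec.snd))
  exact Primrec.list_foldl Primrec.fst (Primrec.const 0) h

/-- membership test -/
def MB (A : Aut n) (x : List (Ltr n)) : Prop :=
  ∃ l ∈ lst A.1 (bP (kk A) x.length), (∃ q ∈ A.2, chk l = some q) ∧ SameFrom [] x (wd l)

theorem MB_iff (A : Aut n) (u w : List (Ltr n)) : MB A (u ++ w) ↔ w ∈ RS A u := by
  rw [RS_short (kk_spec A)]
  constructor
  · rintro ⟨l, hl, h1, h2⟩
    rw [mem_lst] at hl
    exact ⟨l, hl.1, (FP_chk A l hl.2).2 h1, h2⟩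
  · rintro ⟨l, hl, h1, h2⟩
    have hm : ∀ t ∈ l, t ∈ A.1 := h1.1
    exact ⟨l, (mem_lst _ _ _).2 ⟨hl, hm⟩, (FP_chk A l hm).1 h1, h2⟩

theorem primrec_bP : Primrec₂ (fun k m : ℕ => bP k m) := by
  unfold bP
  have h : Primrec₂ (fun k m : ℕ => (m+1)*(k+1)) :=
    Primrec.nat_mul.comp (Primrec.succ.comp Primrec.snd) (Primrec.succ.comp Primrec.fst)
  exact Primrec.nat_mul.comp (Primrec.succ.comp h) h

theorem primrec_wd : Primrec (fun l : List (Tr n) => wd l) := by
  unfold wd
  exact Primrec.listFilterMap Primrec.id (Primrec.fst.comp (Primrec.snd.comp Primrec.snd))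

theorem primrec_MB : PrimrecRel (fun (A : Aut n) (x : List (Ltr n)) => MB A x) := by
  -- inner relation
  have h1 : PrimrecRel (fun (q : ℕ) (l : List (Tr n)) => chk l = some q) :=
    Primrec.eq.comp (primrec_chk.comp Primrec.snd) (Primrec.option_some.comp Primrec.fst)
  have h2 : PrimrecRel (fun (l : List (Tr n)) (p : Aut n × List (Ltr n)) =>
      (∃ q ∈ p.1.2, chk l = some q) ∧ SameFrom [] p.2 (wd l)) := by
    refine PrimrecPred.and ?_ ?_
    · exact h1.exists_mem_list.comp (Primrec.snd.comp (Primrec.fst.comp Primrec.snd)) Primrec.fst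
    · exact primrec_same.comp (Primrec.snd.comp Primrec.snd) (primrec_wd.comp Primrec.fst)
  have h3 : Primrec (fun p : Aut n × List (Ltr n) => lst p.1.1 (bP (kk p.1) p.2.length)) :=
    primrec_lst.comp (Primrec.fst.comp Primrec.fst)
      (primrec_bP.comp (primrec_kk.comp Primrec.fst) (Primrec.list_length.comp Primrec.snd))
  exact h2.exists_mem_list.comp h3 Primrec.id

theorem primrec_iff {α : Type} [Primcodable α] {p q : α → Prop} (hp : PrimrecPred p) (hq : PrimrecPred q) :
    PrimrecPred (fun a => (p a ↔ q a)) := by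
  refine ((hp.not.or hq).and (hq.not.or hp)).of_eq ?_
  intro a
  tauto

/-- the decision predicate -/
def DD (A : Aut n) : Prop :=
  ∀ u ∈ words n (bnd n (bQ5 n (kk A)) + 1), ∃ u' ∈ words n (bnd n (bQ5 n (kk A))),
    ∀ w ∈ words n (bnd n ((bnd n (bQ5 n (kk A)) + 2) + bQ3' n (kk A))),
      (MB A (u ++ w) ↔ MB A (u' ++ w))

theorem DD_iff (A : Aut n) : DD A ↔ (Set.range (RS A)).Finite := by
  rw [finite_iff (kk_spec A)]
  simp only [DD, MB_iff]

theorem primrec_DD : PrimrecPred (fun A : Aut n => DD A) := by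
  -- level 3: relation in w and (A, u, u')
  have c1 : PrimrecRel (fun (w : List (Ltr n)) (p : Aut n × List (Ltr n) × List (Ltr n)) =>
      (MB p.1 (p.2.1 ++ w) ↔ MB p.1 (p.2.2 ++ w))) := by
    refine primrec_iff ?_ ?_
    · exact primrec_MB.comp (Primrec.fst.comp Primrec.snd)
        (Primrec.list_append.comp (Primrec.fst.comp (Primrec.snd.comp Primrec.snd)) Primrec.fst)
    · exact primrec_MB.comp (Primrec.fst.comp Primrec.snd)
        (Primrec.list_append.comp (Primrec.snd.comp (Primrec.snd.comp Primrec.snd)) Primrec.fst)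
  have b1 : Primrec (fun A : Aut n => bnd n (bQ5 n (kk A))) :=
    primrec_bnd.comp (primrec_bQ5.comp primrec_kk)
  have b2 : Primrec (fun A : Aut n => words n (bnd n ((bnd n (bQ5 n (kk A)) + 2) + bQ3' n (kk A)))) := by
    refine primrec_words.comp (primrec_bnd.comp (Primrec.nat_add.comp (Primrec.nat_add.comp b1 (Primrec.const 2)) ?_))
    exact primrec_bQ3'.comp primrec_kk
  have c2 : PrimrecPred (fun (p : Aut n × List (Ltr n) × List (Ltr n)) =>
      ∀ w ∈ words n (bnd n ((bnd n (bQ5 n (kk p.1)) + 2) + bQ3' n (kk p.1))),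
        (MB p.1 (p.2.1 ++ w) ↔ MB p.1 (p.2.2 ++ w))) :=
    c1.forall_mem_list.comp (b2.comp Primrec.fst) Primrec.id
  -- level 2: relation in u' and (A, u)
  have c3 : PrimrecRel (fun (u' : List (Ltr n)) (p : Aut n × List (Ltr n)) =>
      ∀ w ∈ words n (bnd n ((bnd n (bQ5 n (kk p.1)) + 2) + bQ3' n (kk p.1))),
        (MB p.1 (p.2 ++ w) ↔ MB p.1 (u' ++ w))) :=
    c2.comp (f := fun q : List (Ltr n) × (Aut n × List (Ltr n)) => (q.2.1, q.2.2, q.1))
      (Primrec.pair (Primrec.fst.comp Primrec.snd) (Primrec.pair (Primrec.snd.comp Primrec.snd) Primrec.fst))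
  have c4 : PrimrecPred (fun (p : Aut n × List (Ltr n)) => ∃ u' ∈ words n (bnd n (bQ5 n (kk p.1))),
      ∀ w ∈ words n (bnd n ((bnd n (bQ5 n (kk p.1)) + 2) + bQ3' n (kk p.1))),
        (MB p.1 (p.2 ++ w) ↔ MB p.1 (u' ++ w))) :=
    c3.exists_mem_list.comp ((primrec_words.comp b1).comp Primrec.fst) Primrec.id
  have c5 : PrimrecRel (fun (u : List (Ltr n)) (A : Aut n) => ∃ u' ∈ words n (bnd n (bQ5 n (kk A))),
      ∀ w ∈ words n (bnd n ((bnd n (bQ5 n (kk A)) + 2) + bQ3' n (kk A))),
        (MB A (u ++ w) ↔ MB A (u' ++ w))) :=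
    c4.comp (f := fun q : List (Ltr n) × Aut n => (q.2, q.1)) (Primrec.pair Primrec.snd Primrec.fst)
  have b3 : Primrec (fun A : Aut n => words n (bnd n (bQ5 n (kk A)) + 1)) :=
    primrec_words.comp (Primrec.succ.comp b1)
  exact c5.forall_mem_list.comp b3 Primrec.id

end Pool.Agent.RecFIM
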